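import Pool.Agent.H.MP_09c861_lc.Ker
import Pool.Agent.Lib.helper22.CXReach

namespace Pool.Agent.H.MP_09c861_lc
open Pool.Agent.Lib.CX Function SimpleGraph Classical Finset

theorem nocop {W : Type} {G : SimpleGraph W} (h : ∀ ψ, ¬ B5 G ψ) (q : Fin 4 → W) (hq : ∀ i j, i ≠ j → G.Adj (q i) (q j))
    {x y z} (hx : G.Reachable (q 0) x) (hy : G.Reachable (q 0) y) (hz : G.Reachable (q 0) z) (e : G.Adj x y) :
    G.Adj x z ∨ G.Adj y z := by
  have L1 : ∀ q : Fin 4 → W, (∀ i j, i ≠ j → G.Adj (q i) (q j)) → ∀ v i, G.Adj v (q i) →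
      ∃ d, ∀ j, j ≠ d → G.Adj v (q j) := fun q hq v i e => by
    by_contra hn
    push Not at hn
    obtain ⟨j, -, h1⟩ := hn 0
    obtain ⟨l, h2, h3⟩ := hn j
    have n1 : i ≠ j := by rintro rfl; exact h1 e
    have n2 : i ≠ l := by rintro rfl; exact h3 e
    obtain ⟨m, m1, m2, m3⟩ := (by decide : ∀ i j l : Fin 4, ∃ m, i ≠ m ∧ m ≠ j ∧ m ≠ l) i j l
    exact h ![q i, q m, q j, q l, v] ⟨⟨hq _ _ m1, hq _ _ n1, hq _ _ n2, hq _ _ m2, hq _ _ m3, hq _ _ h2.symm⟩, e, h1, h3⟩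
  have L2 : ∀ v, G.Reachable (q 0) v → ∃ d, ∀ j, j ≠ d → G.Adj v (q j) := fun v hv => by
    rw [reachable_iff_reflTransGen] at hv
    induction hv with
    | refl => exact ⟨0, fun j hj => hq _ _ hj.symm⟩
    | @tail u v _ e ih =>
      obtain ⟨d, hd⟩ := ih
      obtain ⟨d', hd'⟩ := L1 (update q d u) (fun i j ne => by
        by_cases a : i = d
        · subst a; rw [update_self, update_of_ne ne.symm]; exact hd _ ne.symm
        · by_cases b : j = d
          · subst b; rw [update_self, update_of_ne a]; exact (hd _ a).symm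
          · rw [update_of_ne a, update_of_ne b]; exact hq _ _ ne) v d (by simpa using e.symm)
      obtain ⟨m, m1, m2, -⟩ := (by decide : ∀ i j l : Fin 4, ∃ m, i ≠ m ∧ m ≠ j ∧ m ≠ l) d d' d'
      exact L1 q hq v m (by simpa [update_of_ne m1.symm] using hd' m m2)
  obtain ⟨d1, h1⟩ := L2 x hx
  obtain ⟨d2, h2⟩ := L2 y hy
  obtain ⟨d3, h3⟩ := L2 z hz
  obtain ⟨m, m1, m2, m3⟩ := (by decide : ∀ i j l : Fin 4, ∃ m, i ≠ m ∧ m ≠ j ∧ m ≠ l) d1 d2 d3
  obtain ⟨l, l1, l2, l3⟩ := (by decide : ∀ i j l : Fin 4, ∃ m, i ≠ m ∧ m ≠ j ∧ m ≠ l) m d1 d2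
  by_contra hn
  rw [not_or] at hn
  exact h ![q m, q l, x, y, z] ⟨⟨hq _ _ l1, (h1 _ m1.symm).symm, (h2 _ m2).symm, (h1 _ l2).symm, (h2 _ l3).symm, e⟩,
    h3 _ m3, fun a => hn.1 a.symm, fun a => hn.2 a.symm⟩

def cop (a : Gr) (t : T) : Bool := a.adjB t.1 t.2.1 && !a.adjB t.1 t.2.2 && !a.adjB t.2.1 t.2.2
def stX (a : Gr) (X : List ℕ) (t : T) : List ℕ :=
  if cop a t = true ∧ t.1 ∉ X ∧ t.2.1 ∉ X ∧ t.2.2 ∉ X then t.1 :: t.2.1 :: t.2.2 :: X else X
def Xl (a : Gr) (C : List ℕ) : List ℕ := (C ×ˢ C ×ˢ C).foldl (stX a) []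
def Cl (a : Gr) (q : ℕ) : List ℕ := (List.range a.n).filter fun x =>
  reachB ((List.range a.n ×ˢ List.range a.n).filter fun p => a.adjB p.1 p.2, q, x)
def Kl (a : Gr) (N q : ℕ) : List ℕ :=
  (Cl a q).filter fun x => k2 a N (Xl a (Cl a q)) (Ml a N (Cl a q) (Xl a (Cl a q))) x

variable {a : Gr}

theorem fold_max (L : List T) (X : List ℕ) : X ⊆ L.foldl (stX a) X ∧ ∀ t ∈ L, cop a t = true →
    t.1 ∈ L.foldl (stX a) X ∨ t.2.1 ∈ L.foldl (stX a) X ∨ t.2.2 ∈ L.foldl (stX a) X := by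
  induction L generalizing X with
  | nil => simp
  | cons t L ih =>
    have h1 := ih (stX a X t)
    have h2 : X ⊆ stX a X t := fun y hy => by unfold stX; split_ifs <;> simp [hy]
    refine ⟨fun y hy => h1.1 (h2 hy), List.forall_mem_cons.2 ⟨fun h => ?_, h1.2⟩⟩
    have : t.1 ∈ stX a X t ∨ t.2.1 ∈ stX a X t ∨ t.2.2 ∈ stX a X t := by
      unfold stX; split_ifs with e
      · simp
      · simp only [h, true_and, not_and_or, not_not] at e; exact e
    exact this.imp (@h1.1 _) (Or.imp (@h1.1 _) (@h1.1 _))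

theorem fold_len (U : Finset ℕ) (L : List T) (h : ∀ t ∈ L, cop a t = true → t.1 ∈ U ∨ t.2.1 ∈ U ∨ t.2.2 ∈ U)
    (X : List ℕ) (hX : X.length ≤ 3 * #(U.filter (· ∈ X))) : (L.foldl (stX a) X).length ≤ 3 * #U := by
  induction L generalizing X with
  | nil => exact hX.trans (Nat.mul_le_mul_left _ (card_filter_le ..))
  | cons t L ih =>
    refine ih (fun t ht => h t (List.mem_cons_of_mem _ ht)) _ ?_
    unfold stX; split_ifs with e
    · have : #(U.filter (· ∈ X)) < #(U.filter (· ∈ t.1 :: t.2.1 :: t.2.2 :: X)) := by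
        refine card_lt_card ⟨fun y => by simp +contextual, fun s => ?_⟩
        rcases h t List.mem_cons_self e.1 with b | b | b
        exacts [e.2.1 (mem_filter.1 (s (by simp [b]))).2, e.2.2.1 (mem_filter.1 (s (by simp [b]))).2,
          e.2.2.2 (mem_filter.1 (s (by simp [b]))).2]
      simp only [List.length_cons]; omega
    · exact hX

theorem mem_Cl {q x} : x ∈ Cl a q ↔ x < a.n ∧ (GN a).Reachable q x := by
  simp only [Cl, List.mem_filter, List.mem_range, reachB_iff, reachable_iff_reflTransGen]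
  refine and_congr_right fun _ => iff_of_eq (congrArg (Relation.ReflTransGen · q x) (funext₂ fun u v => propext ?_))
  simp only [List.mem_product, List.mem_range, ← GN_adj]
  exact ⟨fun h => h.2, fun h => ⟨⟨GN_lt _ _ h, GN_lt _ _ h.symm⟩, h⟩⟩

theorem cop_iff {x y z} : cop a (x, y, z) = true ↔ (GN a).Adj x y ∧ ¬ ((GN a).Adj x z ∨ (GN a).Adj y z) := by
  simp [cop, GN_adj, and_assoc]

theorem ctx (q) : Ctx a (Cl a q) (Xl a (Cl a q)) where
  nd := List.nodup_range.filter _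
  lt _ h := (mem_Cl.1 h).1
  cl _ h _ e := mem_Cl.2 ⟨GN_lt _ _ e.symm, (mem_Cl.1 h).2.trans e.reachable⟩
  p3 x hx y hy z hz x1 y1 z1 e := by_contra fun hn => by
    have := (fold_max (a := a) (Cl a q ×ˢ Cl a q ×ˢ Cl a q) []).2 (x, y, z) (by simp [hx, hy, hz]) (cop_iff.2 ⟨e, hn⟩)
    exact this.elim x1 fun h => h.elim y1 z1

theorem bnd_mono {N m s m' s'} (h : m ≤ m') (h' : s ≤ s') : bnd N m s ≤ bnd N m' s' := by
  unfold bnd; gcongr <;> omega

theorem kernel {k K : ℕ} (hk : k ≤ K) (s : S (GN a) a.n (k + 1)) {ψ} (b : B5 (GN a) ψ) :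
    ∃ u v, (GN a).Adj u v ∧ S ((GN a).map (mv u v)) a.n k ∧
      (((u ∈ [ψ 0, ψ 1, ψ 2, ψ 3]) ∧ v ∈ [ψ 0, ψ 1, ψ 2, ψ 3]) ∨ (u ∈ Kl a (2 * K + 7) (ψ 0) ∧ v ∈ Kl a (2 * K + 7) (ψ 0) ∧
        (Kl a (2 * K + 7) (ψ 0)).length ≤ bnd (2 * K + 7) (6 * K + 6) (2 ^ (6 * K + 6)))) := by
  obtain ⟨W, f, s⟩ := s
  let q : Fin 4 → ℕ := ![ψ 0, ψ 1, ψ 2, ψ 3]
  have hq : ∀ i j, i ≠ j → (GN a).Adj (q i) (q j) := by
    obtain ⟨⟨h1, h2, h3, h4, h5, h6⟩, -⟩ := b
    have := h1.symm; have := h2.symm; have := h3.symm; have := h4.symm; have := h5.symm; have := h6.symm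
    intro i j; fin_cases i <;> fin_cases j <;> simp [q, *]
  by_cases c : ∃ i j, i ≠ j ∧ f (q i) = f (q j)
  · obtain ⟨i, j, ne, e⟩ := c
    have m : ∀ i, q i ∈ [ψ 0, ψ 1, ψ 2, ψ 3] := fun i => by fin_cases i <;> simp [q]
    exact ⟨_, _, hq i j ne, s.fwd GN_lt (hq i j ne) e, .inl ⟨m i, m j⟩⟩
  push Not at c
  have hX : (Xl a (Cl a (ψ 0))).length ≤ 6 * K + 6 := by
    refine (fold_len (Tch f a.n) _ (fun ⟨x, y, z⟩ ht h => ?_) [] (by simp)).trans
      (by have := s.tch_le subset_rfl; omega)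
    simp only [s.mem_tch subset_rfl]
    by_contra hn
    simp only [not_or, not_not] at hn
    simp only [List.mem_product, mem_Cl] at ht
    have r : ∀ x, (GN a).Reachable (ψ 0) x → ((GN a).map f).Reachable (f (ψ 0)) (f x) := fun x h => by
      rw [reachable_iff_reflTransGen] at h
      induction h with
      | refl => rfl
      | @tail u v _ e ih =>
        by_cases e' : f u = f v
        exacts [e' ▸ ih, ih.trans (map_adj_apply' e e').reachable]
    have := nocop (s.nobad GN_lt) (f ∘ q) (fun i j ne => map_adj_apply' (hq i j ne) (c i j ne)) (r x ht.1.2)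
      (r y ht.2.1.2) (r z ht.2.2.2) ((hn.1.adj hn.2.1).2 (cop_iff.1 h).1)
    rw [hn.1.adj hn.2.2, hn.2.1.adj hn.2.2] at this
    exact (cop_iff.1 h).2 this
  have h1 := hyp1 (a := a) (N := 2 * K + 7)
  have h2 := (ctx (a := a) (ψ 0)).hyp2 (N := 2 * K + 7)
  obtain ⟨f1, s1⟩ := h1.down subset_rfl (by omega) s
  obtain ⟨f2, s2⟩ := h2.down h1.1 (by omega) s1
  have s3 := h1.up subset_rfl (by omega) (h2.up h1.1 (by omega) s2)
  obtain ⟨i, hi⟩ : ∃ i, ¬ Un f2 (ψ i) := by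
    by_contra hn
    push Not at hn
    exact s3.nobad GN_lt (f2 ∘ ψ) (b.congr fun i j => ((hn _).adj (hn _)).symm)
  have hi' := hi
  simp only [Un, not_forall] at hi'
  obtain ⟨y, e, ne⟩ := hi'
  obtain ⟨v, v1, v2⟩ := s3.conn.edge e.symm (Ne.symm ne)
  have r : (GN a).Reachable (ψ 0) (ψ i) := by
    obtain ⟨⟨h1, h2, h3, -⟩, h4, -⟩ := b
    fin_cases i
    exacts [.rfl, h1.reachable, h2.reachable, h3.reachable, h4.symm.reachable]
  have m : ∀ x, ¬ Un f2 x → (GN a).Reachable (ψ 0) x → x ∈ Kl a (2 * K + 7) (ψ 0) := fun x h r => by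
    have := by_contra fun e => h (s2.un x e)
    exact List.mem_filter.2 ⟨mem_Cl.2 ⟨this.1, r⟩, this.2⟩
  exact ⟨_, _, v1, s3.fwd GN_lt v1 v2, .inr ⟨m _ hi r, m _ (fun h => v1.ne (h _ v2)) (r.trans v1.reachable),
    (ctx _).size.trans (bnd_mono hX (Nat.pow_le_pow_right (by omega) hX))⟩⟩

abbrev T5 := ℕ × ℕ × ℕ × ℕ × ℕ

def bdB (a : Gr) (t : T5) : Bool := (a.adjB t.1 t.2.1 && a.adjB t.1 t.2.2.1 && a.adjB t.1 t.2.2.2.1 &&
  a.adjB t.2.1 t.2.2.1 && a.adjB t.2.1 t.2.2.2.1 && a.adjB t.2.2.1 t.2.2.2.1) && a.adjB t.2.2.2.2 t.1 &&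
  !a.adjB t.2.2.2.2 t.2.2.1 && !a.adjB t.2.2.2.2 t.2.2.2.1
def bad (a : Gr) : Option T5 :=
  (List.range a.n ×ˢ List.range a.n ×ˢ List.range a.n ×ˢ List.range a.n ×ˢ List.range a.n).find? fun t => bdB a t
def cand0 (a : Gr) (N : ℕ) (t : T5) : List (ℕ × ℕ) :=
  [t.1, t.2.1, t.2.2.1, t.2.2.2.1] ×ˢ [t.1, t.2.1, t.2.2.1, t.2.2.2.1] ++ Kl a N t.1 ×ˢ Kl a N t.1
def cand (a : Gr) (N : ℕ) : List (ℕ × ℕ) := cand0 a N ((bad a).getD (0, 0, 0, 0, 0))
def con (a : Gr) (e : ℕ × ℕ) : Gr := if a.adjB e.1 e.2 = true then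
  (a.1, (List.range a.n ×ˢ List.range a.n).filter fun p =>
    ∃ x < a.n, ∃ y < a.n, a.adjB x y = true ∧ mv e.1 e.2 x = p.1 ∧ mv e.1 e.2 y = p.2) else a
def nxt (N D : ℕ) (s : Gr × ℕ) : Gr × ℕ := (con s.1 ((cand s.1 N).getD (s.2 % D) (0, 0)), s.2 / D)
def KK (a : Gr × ℕ) : ℕ := min a.2 a.1.n
def DD (a : Gr × ℕ) : ℕ := 16 + bnd (2 * KK a + 7) (min (6 * KK a + 6) a.1.n)
  (min (2 ^ min (6 * KK a + 6) a.1.n) a.1.n) ^ 2
def run (a : Gr × ℕ) (i : ℕ) : Gr × ℕ := (nxt (2 * KK a + 7) (DD a))^[KK a] (a.1, i)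

theorem bdB_iff {ψ : Fin 5 → ℕ} : bdB a (ψ 0, ψ 1, ψ 2, ψ 3, ψ 4) = true ↔ B5 (GN a) ψ := by
  simp [bdB, B5, Bd, GN_adj, and_assoc]

theorem bad_none : bad a = none ↔ ∀ ψ, ¬ B5 (GN a) ψ := by
  simp only [bad, List.find?_eq_none, Prod.forall, List.mem_product, List.mem_range]
  refine ⟨fun h ψ b => ?_, fun h x y z u v _ e => h ![x, y, z, u, v] (bdB_iff.1 e)⟩
  have := fun i => (b.nb i).elim (GN_lt _)
  exact h _ _ _ _ _ ⟨this 0, this 1, this 2, this 3, this 4⟩ (bdB_iff.2 b)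

theorem con_fst (e) : (con a e).1 = a.1 := by unfold con; split_ifs <;> rfl

theorem GN_con {u v} (h : (GN a).Adj u v) : GN (con a (u, v)) = (GN a).map (mv u v) := by
  have m : ∀ x < a.n, mv u v x < a.n := fun x hx => by
    unfold mv; split_ifs
    exacts [GN_lt _ _ h, hx]
  ext x y
  rw [GN_adj, con, if_pos (GN_adj.1 h), map_adj']
  rw [Gr.adjB, decide_eq_true_eq]
  simp only [List.mem_filter, List.mem_product, List.mem_range, decide_eq_true_eq]
  constructor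
  · rintro ⟨-, -, ne, ⟨-, p, -, q, -, h, rfl, rfl⟩ | ⟨-, p, -, q, -, h, rfl, rfl⟩⟩
    exacts [⟨ne, p, q, GN_adj.2 h, rfl, rfl⟩, ⟨ne, q, p, (GN_adj.2 h).symm, rfl, rfl⟩]
  · rintro ⟨ne, p, q, e, rfl, rfl⟩
    have h1 := GN_lt _ _ e
    have h2 := GN_lt _ _ e.symm
    exact ⟨m p h1, m q h2, ne, .inl ⟨⟨m p h1, m q h2⟩, p, h1, q, h2, GN_adj.1 e, rfl, rfl⟩⟩

theorem run_sound {N D j : ℕ} (s : Gr × ℕ) (h : bad ((nxt N D)^[j] s).1 = none) : S (GN s.1) s.1.n j := by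
  induction j generalizing s with
  | zero => exact S.of_free (bad_none.1 h)
  | succ j ih =>
    have := ih _ h
    simp only [nxt, Gr.n, con_fst] at this
    generalize (cand s.1 N).getD (s.2 % D) (0, 0) = e at this
    by_cases c : s.1.adjB e.1 e.2 = true
    · rw [GN_con (GN_adj.2 c)] at this
      exact this.back GN_lt (GN_adj.2 c)
    · rw [con, if_neg c] at this
      exact this.mono (by omega)

theorem run_complete {K D n j : ℕ} (hj : j ≤ K) (h0 : 16 < D) (hD : ∀ m ≤ n,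
    m ≤ bnd (2 * K + 7) (6 * K + 6) (2 ^ (6 * K + 6)) → 16 + m ^ 2 ≤ D) (a : Gr) (hn : a.n = n)
    (h : S (GN a) n j) : ∃ i < D ^ j, bad ((nxt (2 * K + 7) D)^[j] (a, i)).1 = none := by
  induction j generalizing a with
  | zero =>
    obtain ⟨W, f, s⟩ := h
    exact ⟨0, by simp, bad_none.2 (s.zero (hn ▸ GN_lt))⟩
  | succ j ih =>
    subst hn
    obtain ⟨d, d1, d2⟩ : ∃ d < D, S (GN (con a ((cand a (2 * K + 7)).getD d (0, 0)))) a.n j := by
      rcases hb : bad a with _ | t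
      · refine ⟨0, by omega, ?_⟩
        have : (cand a (2 * K + 7)).getD 0 (0, 0) = (0, 0) := by simp [cand, hb, cand0, List.product_cons]
        rw [this, con, if_neg (by simp [Gr.adjB])]
        exact S.of_free (bad_none.1 hb)
      · obtain ⟨x, y, z, w, w'⟩ := t
        obtain ⟨u, v, h1, h2, h3⟩ := kernel (ψ := ![x, y, z, w, w']) (show j ≤ K by omega) h
          (bdB_iff.1 (List.find?_some hb))
        have e : cand a (2 * K + 7) = [x, y, z, w] ×ˢ [x, y, z, w] ++ Kl a (2 * K + 7) x ×ˢ Kl a (2 * K + 7) x := by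
          simp [cand, hb, cand0]
        suffices ∃ d < D, (cand a (2 * K + 7)).getD d (0, 0) = (u, v) by
          obtain ⟨d, d1, d2⟩ := this
          exact ⟨d, d1, by rwa [d2, GN_con h1]⟩
        rcases h3 with h3 | h3
        · obtain ⟨d, d1, d2⟩ := List.getElem_of_mem (l := [x, y, z, w] ×ˢ [x, y, z, w]) (List.mem_product.2 h3)
          refine ⟨d, d1.trans (by simpa using h0), ?_⟩
          rw [e, List.getD_append _ _ _ _ d1, List.getD_eq_getElem _ _ d1]; exact d2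
        · obtain ⟨d, d1, d2⟩ := List.getElem_of_mem (l := cand a (2 * K + 7))
            (e ▸ List.mem_append_right _ (List.mem_product.2 ⟨h3.1, h3.2.1⟩))
          refine ⟨d, d1.trans_le (le_trans ?_ (hD _ ?_ h3.2.2)), by rw [List.getD_eq_getElem _ _ d1, d2]⟩
          · rw [e, List.length_append, List.length_product, List.length_product]; simp [sq]
          · exact (List.length_filter_le ..).trans ((List.length_filter_le ..).trans (by simp))
    obtain ⟨i, i1, i2⟩ := ih (by omega) _ (by simp [Gr.n, con_fst]) d2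
    refine ⟨d + D * i, by rw [pow_succ]; nlinarith, ?_⟩
    rw [iterate_succ_apply, nxt]
    simpa only [Nat.add_mul_mod_self_left, Nat.mod_eq_of_lt d1, Nat.add_mul_div_left _ _ (show 0 < D by omega),
      Nat.div_eq_of_lt d1, zero_add] using i2

theorem run_iff (a : Gr × ℕ) : (∃ i < DD a ^ KK a, bad (run a i).1 = none) ↔ FreeC [H₁, H₂] a := by
  rw [freeC_iff]
  refine ⟨fun ⟨i, _, h⟩ => (run_sound _ h).mono (min_le_left _ _), fun h => run_complete le_rfl ?_ ?_ _ rfl h.min⟩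
  · have : 0 < bnd (2 * KK a + 7) (min (6 * KK a + 6) a.1.n) (min (2 ^ min (6 * KK a + 6) a.1.n) a.1.n) := by
      unfold bnd; positivity
    unfold DD; nlinarith
  · intro m h1 h2
    refine Nat.add_le_add_left (Nat.pow_le_pow_left ?_ 2) 16
    have k : ∀ N m s, 2 ^ m ≤ bnd N m s ∧ 2 ^ s ≤ bnd N m s := fun N m s => by
      have h1 : 1 ≤ (N + 1) * (N + 1) := Nat.mul_pos (by omega) (by omega)
      have h2 : 2 ^ s ≤ (N + 2) ^ s := Nat.pow_le_pow_left (by omega) s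
      have h3 : 1 ≤ 2 ^ s := Nat.one_le_two_pow
      have h4 : 1 ≤ 2 ^ m := Nat.one_le_two_pow
      have h5 := Nat.mul_le_mul h1 (Nat.mul_le_mul (h3.trans h2) (le_refl (2 ^ m)))
      have h6 := Nat.mul_le_mul h1 (Nat.mul_le_mul h2 h4)
      unfold bnd; omega
    have l : a.1.n < 2 ^ a.1.n := Nat.lt_two_pow_self
    rcases min_choice (6 * KK a + 6) a.1.n with e | e <;> rw [e]
    · rcases min_choice (2 ^ (6 * KK a + 6)) a.1.n with e | e <;> rw [e]
      exacts [h2, h1.trans (l.le.trans (k ..).2)]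
    · exact h1.trans (l.le.trans (k ..).1)

end Pool.Agent.H.MP_09c861_lc
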