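import Pool.Agent.Lib.helper26.ContrDefs
import Pool.Agent.Lib.helper26.CXFptDefs
import Pool.Agent.Lib.lead.CXGraph

namespace Pool.Agent.H.MP_09c861_lc
open Pool.Agent.Lib.CX SimpleGraph

/-- `K₄` on `0,1,2,3` and a vertex `4` adjacent to `0` -/
def H₁ : SimpleGraph (Fin 5) := fromRel fun i j => (i ≠ 4 ∧ j ≠ 4) ∨ (i = 4 ∧ j = 0)

/-- `K₄` on `0,1,2,3` and a vertex `4` adjacent to `0` and `1` -/
def H₂ : SimpleGraph (Fin 5) := fromRel fun i j => (i ≠ 4 ∧ j ≠ 4) ∨ (i = 4 ∧ (j = 0 ∨ j = 1))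

/-- `F`-free contraction -/
def FreeC (F : List (SimpleGraph (Fin 5))) (a : Gr × ℕ) : Prop :=
  Contr (fun _ G => ∀ H ∈ F, ¬ H.IsIndContained G) a.2 _ a.1.G

/-- dominating set of size at most `k` -/
def DomSet (a : Gr × ℕ) : Prop := ∃ s : Finset (Fin a.1.n), s.card ≤ a.2 ∧ ∀ v, v ∈ s ∨ ∃ u ∈ s, a.1.G.Adj u v

end Pool.Agent.H.MP_09c861_lc
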