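import Mathlib

namespace Pool.Agent.H.MP_09c861_lc

abbrev T := ℕ × ℕ × ℕ
def R (t : Bool) (dm : ℕ → ℕ → Bool) (x y : T) : Prop := (x.1 = 0 ∧ y.1 = 1) ∨ (x.1 = 1 ∧ y.1 = 2 ∧ x.2 = y.2) ∨
      (3 ≤ x.1 ∧ 3 ≤ y.1 ∧ x.1 ≠ y.1 ∧ x.2 = y.2) ∨ (x.1 = 0 ∧ (y.1 = 3 ∨ y.1 = 4)) ∨
      (x.1 = 2 ∧ y.1 = 4 ∧ dm x.2.1 y.2.1 = true) ∨ (t = true ∧ x.1 = 0 ∧ y.1 = 5) ∨
      (t = false ∧ x.1 = 2 ∧ y.1 = 3 ∧ dm x.2.1 y.2.1 = true)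

def kb (t : Bool) (k l : ℕ) : Prop := (k = 0 ∧ l = 1) ∨ (k = 1 ∧ l = 2) ∨ (3 ≤ k ∧ 3 ≤ l ∧ k ≠ l) ∨
  (k = 0 ∧ (l = 3 ∨ l = 4)) ∨ (k = 2 ∧ l = 4) ∨ (t = true ∧ k = 0 ∧ l = 5) ∨ (t = false ∧ k = 2 ∧ l = 3)
def ks (t : Bool) (k l : ℕ) : Prop := kb t k l ∨ kb t l k
instance (t k l) : Decidable (ks t k l) := by unfold ks kb; infer_instance

theorem s0 {t dm} {x y : T} (h : R t dm x y) : kb t x.1 y.1 ∧ (3 ≤ x.1 → 3 ≤ y.1 → x.2 = y.2) := by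
  unfold kb
  rcases h with h | h | h | h | h | h | h
  exacts [⟨.inl h, by omega⟩, ⟨.inr (.inl ⟨h.1, h.2.1⟩), by omega⟩, ⟨.inr (.inr (.inl ⟨h.1, h.2.1, h.2.2.1⟩)), fun _ _ => h.2.2.2⟩,
    ⟨.inr (.inr (.inr (.inl h))), by omega⟩, ⟨.inr (.inr (.inr (.inr (.inl ⟨h.1, h.2.1⟩)))), by omega⟩,
    ⟨.inr (.inr (.inr (.inr (.inr (.inl h))))), by omega⟩, ⟨.inr (.inr (.inr (.inr (.inr (.inr ⟨h.1, h.2.1, h.2.2.1⟩))))), by omega⟩]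

theorem s {t dm} {x y : T} (h : R t dm x y ∨ R t dm y x) : ks t x.1 y.1 ∧ (3 ≤ x.1 → 3 ≤ y.1 → x.2 = y.2) :=
    h.elim (fun h => ⟨.inl (s0 h).1, (s0 h).2⟩) fun h => ⟨.inr (s0 h).1, fun a b => ((s0 h).2 b a).symm⟩

theorem d1 {a b c} (h1 : ks false a b) (h2 : ks false a c) (h3 : ks false b c) :
    (3 ≤ a ∨ (b = 3 ∧ c = 4) ∨ (b = 4 ∧ c = 3)) ∧ b ≠ c := by
  simp only [ks, kb, reduceCtorEq, false_and, false_or, true_and] at *; omega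

theorem d2 {a b c} (h1 : ks true a b) (h2 : ks true a c) (h3 : ks true b c) :
    (a = 0 ∨ 3 ≤ a) ∧ (b = 0 ∨ 3 ≤ b) ∧ (c = 0 ∨ 3 ≤ c) ∧ (a = 0 → b ≠ 0) := by
  simp only [ks, kb, reduceCtorEq, false_and, or_false, true_and] at *; omega

theorem fin5 {t dm} {a b c d w : T} (l1 : a.1 < 7) (l2 : b.1 < 7) (l3 : c.1 < 7) (l4 : d.1 < 7) (l5 : w.1 < 7)
    (r1 : R t dm a b ∨ R t dm b a) (r2 : R t dm a c ∨ R t dm c a) (r3 : R t dm a d ∨ R t dm d a)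
    (r4 : R t dm b c ∨ R t dm c b) (r5 : R t dm b d ∨ R t dm d b) (r6 : R t dm c d ∨ R t dm d c)
    (r7 : R t dm w a ∨ R t dm a w) (n1 : ¬ R t dm w c) (n2 : ¬ R t dm c w) (n3 : ¬ R t dm w d) (n4 : ¬ R t dm d w)
    (e : (R t dm w b ∨ R t dm b w) ↔ t = true) : False := by
  have s1 := s r1; have s2 := s r2; have s3 := s r3; have s4 := s r4; have s5 := s r5; have s6 := s r6
  have s7 := s r7
  obtain ⟨k1, i1⟩ := a; obtain ⟨k2, i2⟩ := b; obtain ⟨k3, i3⟩ := c; obtain ⟨k4, i4⟩ := d; obtain ⟨k5, i5⟩ := w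
  cases t
  · have : 3 ≤ k1 ∧ 3 ≤ k2 ∧ 3 ≤ k3 ∧ 3 ≤ k4 ∧ k1 ≠ k2 ∧ k1 ≠ k3 ∧ k1 ≠ k4 ∧ k2 ≠ k3 ∧ k2 ≠ k4 ∧ k3 ≠ k4 := by
      have := d1 s1.1 s2.1 s4.1; have := d1 s1.1 s3.1 s5.1; have := d1 s2.1 s3.1 s6.1
      have := d1 s1.1.symm s4.1 s2.1; have := d1 s1.1.symm s5.1 s3.1; have := d1 s4.1 s5.1 s6.1
      have := d1 s2.1.symm s4.1.symm s1.1; have := d1 s2.1.symm s6.1 s3.1; have := d1 s4.1.symm s6.1 s5.1
      have := d1 s3.1.symm s5.1.symm s1.1; have := d1 s3.1.symm s6.1.symm s2.1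
      have := d1 s5.1.symm s6.1.symm s4.1
      simp only at *; omega
    obtain rfl : i1 = i2 := s1.2 this.1 this.2.1
    obtain rfl : i1 = i3 := s2.2 this.1 this.2.2.1
    obtain rfl : i1 = i4 := s3.2 this.1 this.2.2.2.1
    have n0 : ¬ R false dm (k5, i5) (k2, i1) := fun h => by simpa using e.1 (.inl h)
    clear r1 r2 r3 r4 r5 r6 s1 s2 s3 s4 s5 s6 n2 n4 e s7
    have g : ∀ k, ¬ R false dm (k5, i5) (k, i1) → 3 ≤ k → (3 ≤ k5 → i5 = i1 → k5 = k) ∧ (k5 = 0 → k ≠ 3 ∧ k ≠ 4) ∧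
        (k5 = 2 → dm i5.1 i1.1 = true → k ≠ 3 ∧ k ≠ 4) := fun k h h3 => by
      simp only [R, not_or] at h
      exact ⟨fun a b => by_contra fun c => h.2.2.1 ⟨a, h3, c, b⟩, fun a => ⟨fun b => h.2.2.2.1 ⟨a, .inl b⟩,
        fun b => h.2.2.2.1 ⟨a, .inr b⟩⟩, fun a c => ⟨fun b => h.2.2.2.2.2.2 ⟨trivial, a, b, c⟩,
        fun b => h.2.2.2.2.1 ⟨a, b, c⟩⟩⟩
    have g0 := g _ n0 this.2.1; have g1 := g _ n1 this.2.2.1; have g2 := g _ n3 this.2.2.2.1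
    simp only at l1 l2 l3 l4 l5
    simp only [R, reduceCtorEq, false_and, false_or, true_and] at r7
    clear n0 n1 n3 g
    rcases r7 with (h | h | h | h | h | h) | h | h | h | h | h | h
    any_goals omega
    · have := g0.1 h.1 h.2.2.2; have := g1.1 h.1 h.2.2.2; omega
    · have := g0.2.2 h.1 h.2.2; have := g1.2.2 h.1 h.2.2; have := g2.2.2 h.1 h.2.2; omega
    · have := g0.2.2 h.1 h.2.2; have := g1.2.2 h.1 h.2.2; have := g2.2.2 h.1 h.2.2; omega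
    · have := g0.1 h.2.1 h.2.2.2.symm; have := g1.1 h.2.1 h.2.2.2.symm; omega
  · have s8 := s (e.2 rfl)
    have f1 := d2 s1.1 s2.1 s4.1
    have f2 := d2 s1.1 s3.1 s5.1
    have f3 := d2 s7.1 s8.1 s1.1
    have e1 : 3 ≤ k5 → 3 ≤ k3 → i5 = i3 := fun h1 h2 => by
      by_cases h : k1 = 0
      · exact (s8.2 h1 (by simp only at f1; omega)).trans (s4.2 (by simp only at f1; omega) h2)
      · exact (s7.2 h1 (by simp only at f1; omega)).trans (s2.2 (by simp only at f1; omega) h2)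
    have e2 : 3 ≤ k5 → 3 ≤ k4 → i5 = i4 := fun h1 h2 => by
      by_cases h : k1 = 0
      · exact (s8.2 h1 (by simp only at f1; omega)).trans (s5.2 (by simp only at f1; omega) h2)
      · exact (s7.2 h1 (by simp only at f1; omega)).trans (s3.2 (by simp only at f1; omega) h2)
    have s6 := s6.1
    clear r1 r2 r3 r4 r5 r6 r7 s1 s2 s3 s4 s5 s7 s8 e
    have m1 : 3 ≤ k5 → 3 ≤ k3 → k5 = k3 := fun a b => by_contra fun c => n1 (.inr (.inr (.inl ⟨a, b, c, e1 a b⟩)))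
    have m2 : 3 ≤ k5 → 3 ≤ k4 → k5 = k4 := fun a b => by_contra fun c => n3 (.inr (.inr (.inl ⟨a, b, c, e2 a b⟩)))
    have g : ∀ {x y : T}, ¬ R true dm x y → x.1 = 0 → y.1 ≠ 3 ∧ y.1 ≠ 4 ∧ y.1 ≠ 5 := fun h a => by
      simp only [R, not_or] at h
      exact ⟨fun b => h.2.2.2.1 ⟨a, .inl b⟩, fun b => h.2.2.2.1 ⟨a, .inr b⟩, fun b => h.2.2.2.2.2.1 ⟨trivial, a, b⟩⟩
    have g1 := g n1; have g2 := g n2; have g3 := g n3; have g4 := g n4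
    have f1 := f1.2.2.1; have f2 := f2.2.2.1; have f3 := f3.1
    have : k3 ≠ k4 ∧ (k3 = 0 → k4 ≠ 6) ∧ (k4 = 0 → k3 ≠ 6) := by
      clear * - s6
      simp only [ks, kb, true_and, reduceCtorEq, false_and, or_false] at s6; omega
    simp only at *
    clear n1 n2 n3 n4 e1 e2 s6
    omega

end Pool.Agent.H.MP_09c861_lc
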