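import Pool.Agent.H.MP_09c861_lc.Defs
import Pool.Agent.H.MP_09c861_lc.Fin5
import Pool.Agent.Lib.helper26.Contr
import Pool.Agent.Lib.helper26.CXFpt

namespace Pool.Agent.H.MP_09c861_lc
open Pool.Agent.Lib.CX Function SimpleGraph

def Bd {V : Type} (G : SimpleGraph V) (a b c d w : V) : Prop :=
  (G.Adj a b ∧ G.Adj a c ∧ G.Adj a d ∧ G.Adj b c ∧ G.Adj b d ∧ G.Adj c d) ∧ G.Adj w a ∧ ¬ G.Adj w c ∧ ¬ G.Adj w d

def HH (t : Bool) : SimpleGraph (Fin 5) := if t then H₂ else H₁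

theorem cont_iff {V : Type} {G : SimpleGraph V} (t : Bool) :
    (HH t).IsIndContained G ↔ ∃ a b c d w, Bd G a b c d w ∧ (G.Adj w b ↔ t = true) := by
  constructor
  · rintro ⟨e⟩
    refine ⟨e 0, e 1, e 2, e 3, e 4, ?_⟩
    simp only [Bd, e.map_rel_iff]
    cases t <;> simp [HH, H₁, H₂]
  · rintro ⟨a, b, c, d, w, ⟨⟨h1, h2, h3, h4, h5, h6⟩, h7, h8, h9⟩, h0⟩
    have := h1.ne; have := h2.ne; have := h3.ne; have := h4.ne; have := h5.ne; have := h6.ne; have := h7.ne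
    have := h1.symm; have := h2.symm; have := h3.symm; have := h4.symm; have := h5.symm; have := h6.symm
    have := h7.symm
    have := mt G.adj_symm h8; have := mt G.adj_symm h9
    have := (G.adj_comm b w).trans h0
    refine ⟨⟨⟨![a, b, c, d, w], ?_⟩, ?_⟩⟩
    · intro i j; fin_cases i <;> fin_cases j <;> simp <;> grind
    · intro i j; cases t <;> fin_cases i <;> fin_cases j <;> simp_all [HH, H₁, H₂]

def PP (t : Bool) (V : Type) (G : SimpleGraph V) : Prop := ∀ H ∈ [HH t], ¬ H.IsIndContained G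

theorem her (F : List (SimpleGraph (Fin 5))) : Her fun _ G => ∀ H ∈ F, ¬ H.IsIndContained G :=
  fun _ _ _ _ e h H hH ⟨f⟩ => h H hH ⟨e.comp f⟩

theorem pp_iff {V : Type} {G : SimpleGraph V} {t} :
    PP t V G ↔ ∀ a b c d w, Bd G a b c d w → ¬ (G.Adj w b ↔ t = true) := by simp [PP, cont_iff]

def In (n N : ℕ) (x : T) : Prop := x = (0, 0, 0) ∨ (1 ≤ x.1 ∧ x.1 < 7 ∧ x.2.1 < n ∧ x.2.2 < N)

def rel (t b : Bool) (x y : T) : Prop :=
  (x.1 = 0 ∧ y.1 = 1) ∨ (x.1 = 1 ∧ y.1 = 2 ∧ x.2 = y.2) ∨ (3 ≤ x.1 ∧ 3 ≤ y.1 ∧ x.2 = y.2) ∨ (x.1 = 0 ∧ y.1 = 3) ∨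
    (x.1 = 2 ∧ y.1 = 4 ∧ b = true) ∨ (t = true ∧ x.1 = 0 ∧ y.1 = 5) ∨ (t = false ∧ x.1 = 2 ∧ y.1 = 3 ∧ b = true)

def HG (t : Bool) (n N : ℕ) (dm : ℕ → ℕ → Bool) : SimpleGraph {x // In n N x} :=
  fromRel fun x y => rel t (dm x.1.2.1 y.1.2.1) x.1 y.1

variable {t : Bool} {n N : ℕ} {dm : ℕ → ℕ → Bool}

theorem adj {x y} : (HG t n N dm).Adj x y ↔
    x.1 ≠ y.1 ∧ (rel t (dm x.1.2.1 y.1.2.1) x.1 y.1 ∨ rel t (dm y.1.2.1 x.1.2.1) y.1 x.1) := by
  simp [HG, Subtype.ext_iff]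

theorem complete [Finite {x // In n N x}] (hN : 0 < N) (D : Finset ℕ) (hD : ∀ v ∈ D, v < n)
    (h2 : ∀ u < n, ∃ v ∈ D, dm v u = true) : Contr (PP t) (2 * D.card) _ (HG t n N dm) := by
  classical
  let f0 : T → T := fun x => if (x.1 = 1 ∨ x.1 = 2) ∧ x.2.1 ∈ D ∧ x.2.2 = 0 then (0, 0, 0) else x
  let o : {x // In n N x} := ⟨(0, 0, 0), .inl rfl⟩
  refine Contr.complete (her _) (fun x : {x // In n N x} => f0 x.1) ?_ ?_ (pp_iff.2 ?_)
  · have k : ∀ x : {x // In n N x}, f0 x.1 = (0, 0, 0) →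
        Relation.ReflTransGen (fun x y : {x // In n N x} => (HG t n N dm).Adj x y ∧ f0 x.1 = f0 y.1) o x := by
      rintro ⟨⟨k, v, r⟩, hx⟩ e
      by_cases h : (k = 1 ∨ k = 2) ∧ v ∈ D ∧ r = 0
      · obtain ⟨hk, hv, rfl⟩ := h
        have a : (HG t n N dm).Adj o ⟨(1, v, 0), .inr ⟨le_rfl, by simp, hD v hv, hN⟩⟩ ∧ f0 o.1 = f0 (1, v, 0) := by
          simp [adj, rel, o, f0, hv]
        rcases hk with rfl | rfl
        · exact .single a
        · exact .tail (.single a) (by simp [adj, rel, f0, hv])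
      · obtain ⟨rfl, rfl, rfl⟩ : k = 0 ∧ v = 0 ∧ r = 0 := by simpa [f0, h] using e
        exact .refl
    intro x y e
    by_cases h : f0 x.1 = (0, 0, 0)
    · exact (Relation.ReflTransGen.mono (fun _ _ h => ⟨h.1.symm, h.2.symm⟩) _ _ (k x h).swap).trans (k y (Eq.trans (Eq.symm e) h))
    · obtain rfl : x = y := by
        simp only [f0] at e h
        split_ifs at e h <;> simp_all [Subtype.ext_iff]
      exact .refl
  · let E : Finset T := (D.image fun v => (1, v, 0)) ∪ D.image fun v => (2, v, 0)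
    have hE : E.card ≤ 2 * D.card := (Finset.card_union_le ..).trans
      ((add_le_add Finset.card_image_le Finset.card_image_le).trans (by omega))
    have : Set.range (Subtype.val : {x // In n N x} → T) ⊆ (Set.range fun x : {x // In n N x} => f0 x.1) ∪ E := by
      rintro _ ⟨⟨⟨k, v, r⟩, hx⟩, rfl⟩
      by_cases h : (k = 1 ∨ k = 2) ∧ v ∈ D ∧ r = 0
      · right; simp [E]; grind
      · exact .inl ⟨⟨_, hx⟩, by simp only [f0, h, if_false]⟩
    have h5 := (Set.ncard_le_ncard this ((Set.finite_range _).union E.finite_toSet)).trans (Set.ncard_union_le ..)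
    rw [Set.ncard_range_of_injective Subtype.val_injective, Set.ncard_coe_finset] at h5
    omega
  · let Ok : T → Prop := fun x => In n N x ∧ f0 x = x
    have ok : ∀ x, In n N x → Ok (f0 x) := fun x hx => by
      by_cases h : (x.1 = 1 ∨ x.1 = 2) ∧ x.2.1 ∈ D ∧ x.2.2 = 0
      · simp [Ok, f0, h, In]
      · simp only [Ok, f0, h, if_false, hx, and_self]
    have a0 : ∀ x y : T, In n N x → x ≠ y → f0 x ≠ f0 y → rel t (dm x.2.1 y.2.1) x y →
        R t dm (f0 x) (f0 y) ∨ R t dm (f0 y) (f0 x) := by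
      rintro ⟨k, v, r⟩ ⟨k', v', r'⟩ hx n1 n2 h
      simp only [rel, In, ne_eq, Prod.mk.injEq] at h hx n1
      rcases h with ⟨rfl, rfl⟩ | ⟨rfl, rfl, rfl, rfl⟩ | ⟨h1, h2, rfl, rfl⟩ | ⟨rfl, rfl⟩ | ⟨rfl, rfl, h⟩ |
        ⟨h, rfl, rfl⟩ | ⟨h, rfl, rfl, h'⟩
      · obtain ⟨rfl, rfl⟩ : v = 0 ∧ r = 0 := by omega
        simp only [f0, R] at n2 ⊢; split_ifs at n2 ⊢ <;> simp_all
      · simp only [f0, R] at n2 ⊢; split_ifs at n2 ⊢ <;> simp_all
      · have e1 : f0 (k, v, r) = (k, v, r) := if_neg (by simp only; omega)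
        have e2 : f0 (k', v, r) = (k', v, r) := if_neg (by simp only; omega)
        simp only [e1, e2, R]; simp at n1; simp [h1, h2, n1]
      all_goals simp only [f0, R]; split_ifs <;> simp_all
    have a : ∀ {x y}, ((HG t n N dm).map fun x => f0 x.1).Adj x y → Ok x ∧ Ok y ∧ (R t dm x y ∨ R t dm y x) := by
      rintro _ _ ⟨ne, x, y, h, rfl, rfl⟩
      refine ⟨ok _ x.2, ok _ y.2, ?_⟩
      rcases adj.1 h with ⟨h1, h2 | h2⟩
      exacts [a0 _ _ x.2 h1 ne h2, (a0 _ _ y.2 h1.symm (Ne.symm ne) h2).symm]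
    have b : ∀ {x y}, Ok x → Ok y → R t dm x y → ((HG t n N dm).map fun x => f0 x.1).Adj x y := by
      rintro ⟨k, v, r⟩ ⟨k', v', r'⟩ hx hy h
      by_cases e : k = 0 ∧ k' = 4
      · obtain ⟨rfl, rfl⟩ := e
        obtain ⟨u, hu, hu'⟩ := h2 v' (by have := hy.1; simp only [In, Prod.mk.injEq] at this; omega)
        refine ⟨by simp, ⟨(2, u, 0), .inr ⟨by simp, by simp, hD u hu, hN⟩⟩, ⟨_, hy.1⟩, by simp [adj, rel, hu'], ?_, hy.2⟩
        have := hx.1
        simp only [In, Prod.mk.injEq] at this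
        simp [f0, hu]; omega
      · have : (HG t n N dm).Adj ⟨_, hx.1⟩ ⟨_, hy.1⟩ := by
          simp only [adj, rel, R, ne_eq, Prod.mk.injEq] at h ⊢
          rcases h with h | h | h | h | h | h | h
          exacts [⟨by omega, .inl (.inl h)⟩, ⟨by omega, .inl (.inr (.inl h))⟩,
            ⟨by omega, .inl (.inr (.inr (.inl ⟨h.1, h.2.1, h.2.2.2⟩)))⟩,
            ⟨by omega, .inl (.inr (.inr (.inr (.inl (by omega)))))⟩,
            ⟨by omega, .inl (.inr (.inr (.inr (.inr (.inl h)))))⟩,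
            ⟨by omega, .inl (.inr (.inr (.inr (.inr (.inr (.inl h))))))⟩,
            ⟨by omega, .inl (.inr (.inr (.inr (.inr (.inr (.inr h))))))⟩]
        exact ⟨fun e => this.ne (Subtype.ext e), _, _, this, hx.2, hy.2⟩
    rintro x1 x2 x3 x4 x5 ⟨⟨h1, h2, h3, h4, h5, h6⟩, h7, h8, h9⟩ h0
    have a1 := a h1; have a6 := a h6; have a7 := a h7
    have l : ∀ {x}, Ok x → x.1 < 7 := fun h => by rcases h.1 with rfl | h; exacts [by simp, h.2.1]
    exact fin5 (l a1.1) (l a1.2.1) (l a6.1) (l a6.2.1) (l a7.1) a1.2.2 (a h2).2.2 (a h3).2.2 (a h4).2.2 (a h5).2.2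
      a6.2.2 a7.2.2 (mt (b a7.1 a6.1) h8) (mt (fun h => (b a6.1 a7.1 h).symm) h8) (mt (b a7.1 a6.2.1) h9)
      (mt (fun h => (b a6.2.1 a7.1 h).symm) h9)
      ⟨fun h => h0.1 (h.elim (b a7.1 a1.2.1) fun h => (b a1.2.1 a7.1 h).symm), fun h => (a (h0.2 h)).2.2⟩

theorem sound [Finite {x // In n N x}] {k : ℕ} (hN : 4 * k + 2 ≤ N) (rf : ∀ u < n, dm u u = true)
    (h : Contr (PP t) (2 * k) _ (HG t n N dm)) :
    ∃ D : Finset ℕ, D.card ≤ k ∧ (∀ v ∈ D, v < n) ∧ ∀ u < n, ∃ v ∈ D, dm v u = true := by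
  classical
  have := Fintype.ofFinite {x // In n N x}
  obtain ⟨W, f, sj, cn, hc, hp⟩ := h.sound
  have hp := pp_iff.1 hp
  have ht := touched_le sj hc
  obtain ⟨r₁, r₂, b1, b2, ne, un⟩ : ∃ r₁ r₂, r₁ < N ∧ r₂ < N ∧ r₁ ≠ r₂ ∧
      ∀ x : {x // In n N x}, x.1.2.2 = r₁ ∨ x.1.2.2 = r₂ → Un f x := by
    let B := (Finset.univ.filter fun x : {x // In n N x} => ¬ Un f x).image fun x => x.1.2.2
    have h1 : B.card ≤ 2 * (2 * k) := Finset.card_image_le.trans ht
    have h2 := Finset.le_card_sdiff B (Finset.range N)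
    rw [Finset.card_range] at h2
    obtain ⟨a, ha, b, hb, e⟩ := Finset.one_lt_card.1 (show 1 < (Finset.range N \ B).card by omega)
    simp only [Finset.mem_sdiff, Finset.mem_range] at ha hb
    refine ⟨a, b, ha.1, hb.1, e, fun x hx => by_contra fun hn => ?_⟩
    have : x.1.2.2 ∈ B := Finset.mem_image_of_mem _ (by simpa using hn)
    rcases hx with rfl | rfl
    exacts [ha.2 this, hb.2 this]
  let o : {x // In n N x} := ⟨(0, 0, 0), .inl rfl⟩
  let G := HG t n N dm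
  obtain ⟨m, hm⟩ : ∃ m : ∀ j, 1 ≤ j → j < 7 → ∀ u < n, {x // In n N x},
      ∀ j h1 h2 u hu, (m j h1 h2 u hu).1 = (j, u, r₁) :=
    ⟨fun j h1 h2 u hu => ⟨(j, u, r₁), .inr ⟨h1, h2, hu, b1⟩⟩, fun _ _ _ _ _ => rfl⟩
  have um : ∀ j h1 h2 u hu, Un f (m j h1 h2 u hu) := fun _ _ _ _ _ => un _ (.inl (by rw [hm]))
  have ao : ∀ j h1 h2 u hu, G.Adj o (m j h1 h2 u hu) → (G.map f).Adj (f o) (f (m j h1 h2 u hu)) :=
    fun _ _ _ _ _ h => (um _ _ _ _ _).adj'.2 ⟨o, rfl, h⟩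
  have nb : ∀ j h1 h2 u hu, 4 ≤ j → (G.map f).Adj (f o) (f (m j h1 h2 u hu)) →
      (t = true ∧ j = 5) ∨ (j = 4 ∧ ∃ y, f y = f o ∧ y.1.1 = 2 ∧ dm y.1.2.1 u = true) := by
    intro j h1 h2 u hu h4 h
    obtain ⟨y, e, h⟩ := (um _ _ _ _ _).adj'.1 h
    have h5 : y.1.2.2 = r₁ → y.1.1 = 0 := fun a => by rw [← un y (.inl a) o e.symm]
    obtain ⟨-, h | h⟩ := adj.1 h <;> simp only [rel, hm] at h
    · rcases h with h | h | h | h | h | h | h
      any_goals omega
      · have := h5 (by rw [h.2.2]); omega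
      · exact .inr ⟨h.2.1, y, e, h.1, h.2.2⟩
      · exact .inl ⟨h.1, h.2.2⟩
    · rcases h with h | h | h | h | h | h | h
      any_goals omega
      have := h5 (by rw [← h.2.2]); omega
  have gg : ∀ i j h1 h2 h3 h4 u hu, 3 ≤ i → i < j → (G.map f).Adj (f (m i h1 h2 u hu)) (f (m j h3 h4 u hu)) :=
    fun i j _ _ _ _ u _ a b => ((um _ _ _ _ _).adj (um _ _ _ _ _)).2 (adj.2 ⟨by simp [hm]; omega, .inl (by simp [rel, hm]; omega)⟩)
  have s2 : ∀ u hu, (G.map f).Adj (f o) (f (m 4 (by omega) (by omega) u hu)) := fun u hu => by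
    by_contra hn
    have a3 := ao 3 (by omega) (by omega) u hu (by simp [G, adj, rel, hm, o])
    have n6 := mt (nb 6 (by omega) (by omega) u hu (by omega)) (by simp)
    cases t
    · exact hp _ _ _ _ _ ⟨⟨gg 3 4 _ _ _ _ u hu le_rfl (by omega), gg 3 5 _ _ _ _ u hu le_rfl (by omega),
        gg 3 6 _ _ _ _ u hu le_rfl (by omega), gg 4 5 _ _ _ _ u hu (by omega) (by omega),
        gg 4 6 _ _ _ _ u hu (by omega) (by omega), gg 5 6 _ _ _ _ u hu (by omega) (by omega)⟩, a3,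
        mt (nb 5 (by omega) (by omega) u hu (by omega)) (by simp), n6⟩ (by simpa using hn)
    · exact hp _ _ _ _ _ ⟨⟨gg 3 5 _ _ (by omega) (by omega) u hu le_rfl (by omega),
        gg 3 4 _ _ _ _ u hu le_rfl (by omega), gg 3 6 _ _ _ _ u hu le_rfl (by omega),
        (gg 4 5 _ _ _ _ u hu (by omega) (by omega)).symm, gg 5 6 _ _ _ _ u hu (by omega) (by omega),
        gg 4 6 _ _ _ _ u hu (by omega) (by omega)⟩, a3, hn, n6⟩
        (by simpa using ao 5 (by omega) (by omega) u hu (by simp [G, adj, rel, hm, o]))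
  have s3 : ∀ y, f y = f o → ¬ (y.1.1 = 4 ∨ (t = false ∧ y.1.1 = 3)) := by
    rintro ⟨⟨j, u, r⟩, hy⟩ e hj
    have hu : u < n := by simp only [In, Prod.mk.injEq] at hy hj; omega
    have a2 : (G.map f).Adj (f o) (f (m 2 (by omega) (by omega) u hu)) := (um _ _ _ _ _).adj'.2 ⟨_, e, by
      simp only at hj
      rcases hj with rfl | ⟨rfl, rfl⟩ <;> simp [G, adj, rel, hm, rf u hu]⟩
    have a3 := ao 3 (by omega) (by omega) u hu (by simp [G, adj, rel, hm, o])
    have a4 : (G.map f).Adj (f (m 2 (by omega) (by omega) u hu)) (f (m 4 (by omega) (by omega) u hu)) :=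
      ((um _ _ _ _ _).adj (um _ _ _ _ _)).2 (by simp [G, adj, rel, hm, rf u hu])
    cases t
    · let w : {x // In n N x} := ⟨(1, u, r₂), .inr ⟨le_rfl, by simp, hu, b2⟩⟩
      have uw : Un f w := un _ (.inr rfl)
      refine hp _ _ _ _ (f w) ⟨⟨a2, a3, s2 u hu, ((um _ _ _ _ _).adj (um _ _ _ _ _)).2 (by simp [adj, rel, hm, rf u hu]), a4,
        gg 3 4 _ _ _ _ u hu le_rfl (by omega)⟩, (uw.adj'.2 ⟨o, rfl, by simp [adj, rel, w, o]⟩).symm, ?_, ?_⟩ ?_
      all_goals rw [uw.adj (um _ _ _ _ _)]; simp [adj, rel, w, hm, ne.symm]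
    · refine hp _ _ _ _ _ ⟨⟨s2 u hu, a3, ao 5 (by omega) (by omega) u hu (by simp [G, adj, rel, hm, o]),
        (gg 3 4 _ _ _ _ u hu le_rfl (by omega)).symm, gg 4 5 _ _ _ _ u hu (by omega) (by omega),
        gg 3 5 _ _ _ _ u hu le_rfl (by omega)⟩, a2.symm, ?_, ?_⟩ (by simpa using a4)
      all_goals rw [(um _ _ _ _ _).adj (um _ _ _ _ _)]; simp [adj, rel, hm]
  have s4 : ∀ y, f y = f o → y.1.1 = 2 → ∃ z, f z = f o ∧ z.1 = (1, y.1.2) := fun y e h => by
    obtain ⟨z, h1, h2⟩ := cn.edge e fun a => by simp [a, o] at h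
    have h3 := s3 z (h2.symm.trans e)
    refine ⟨z, h2.symm.trans e, ?_⟩
    obtain ⟨-, h1 | h1⟩ := adj.1 h1 <;> simp only [rel] at h1 <;> rcases h1 with h1 | h1 | h1 | h1 | h1 | h1 | h1
    any_goals omega
    · exact (h3 (.inr ⟨h1.1, h1.2.2.1⟩)).elim
    · exact Prod.ext h1.1 h1.2.2
  let B := fun j => Finset.univ.filter fun y : {x // In n N x} => f y = f o ∧ y.1.1 = j
  have c1 : (B 2).card ≤ (B 1).card := by
    choose z z1 z2 using s4
    refine Finset.card_le_card_of_injOn (fun y => if h : f y = f o ∧ y.1.1 = 2 then z y h.1 h.2 else y)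
      (fun y hy => ?_) fun y hy y' hy' e => ?_
    · have hy : f y = f o ∧ y.1.1 = 2 := by simpa [B] using hy
      simp [B, hy, z1, z2]
    · have hy : f y = f o ∧ y.1.1 = 2 := by simpa [B] using hy
      have hy' : f y' = f o ∧ y'.1.1 = 2 := by simpa [B] using hy'
      simp only [hy, hy', and_self, dif_pos] at e
      have := congrArg (fun x => x.1.2) e
      simp only [z2] at this
      exact Subtype.ext (Prod.ext (hy.2.trans hy'.2.symm) this)
  have c2 := wsum sj hc (fun x => if f x = f o ∧ x.1.1 = 2 then 4 else 0) fun c => by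
    by_cases e : c = f o
    · subst e
      have : insert o (B 1 ∪ B 2) ⊆ Finset.univ.filter fun x => f x = f o := by
        intro x; simp only [B, Finset.mem_insert, Finset.mem_union, Finset.mem_filter]; grind
      have h1 := Finset.card_le_card this
      rw [Finset.card_insert_of_notMem (by simp [B, o]), Finset.card_union_of_disjoint
        (Finset.disjoint_filter.2 (by omega))] at h1
      rw [← Finset.sum_filter, Finset.filter_filter, Finset.sum_const, smul_eq_mul]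
      simp only [← and_assoc, and_self]
      simp only [B] at c1
      omega
    · rw [Finset.sum_eq_zero fun x hx => if_neg fun a => e ((Finset.mem_filter.1 hx).2.symm.trans a.1)]
      obtain ⟨x, rfl⟩ := sj c
      have : 1 ≤ (Finset.univ.filter fun y => f y = f x).card := Finset.card_pos.2 ⟨x, by simp⟩
      omega
  rw [← Finset.sum_filter, Finset.sum_const, smul_eq_mul] at c2
  refine ⟨(B 2).image fun y => y.1.2.1, Finset.card_image_le.trans (by simp only [B]; omega),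
    fun v hv => ?_, fun u hu => ?_⟩
  · obtain ⟨⟨⟨j, v, r⟩, hy⟩, h, rfl⟩ := Finset.mem_image.1 hv
    obtain rfl : j = 2 := (Finset.mem_filter.1 h).2.2
    simpa using hy.elim (by simp) fun h => h.2.2.1
  · obtain ⟨-, y, h1, h2, h3⟩ := (nb 4 _ _ u hu le_rfl (s2 u hu)).resolve_left (by simp)
    exact ⟨_, Finset.mem_image_of_mem _ (by simp [B, h1, h2]), h3⟩

instance (n N x) : Decidable (In n N x) := by unfold In; infer_instance
instance (t b x y) : Decidable (rel t b x y) := by unfold rel; infer_instance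

def kk (a : Gr × ℕ) : ℕ := min a.2 a.1.n
def dmA (a : Gr × ℕ) (v u : ℕ) : Bool := decide (v = u ∨ a.1.adjB v u = true)
def vs (a : Gr × ℕ) : List T := (List.range 7 ×ˢ List.range (a.1.n + 1) ×ˢ List.range (4 * kk a + 2)).filter
  fun x => In a.1.n (4 * kk a + 2) x
def red (t : Bool) (a : Gr × ℕ) : Gr × ℕ :=
  (mkGr (vs a) ((vs a ×ˢ vs a).filter fun e => rel t (dmA a e.1.2.1 e.2.2.1) e.1 e.2), 2 * kk a)

theorem mem_vs {a x} : x ∈ vs a ↔ In a.1.n (4 * kk a + 2) x := by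
  obtain ⟨k, i, j⟩ := x
  simp only [vs, List.mem_filter, List.mem_product, List.mem_range, decide_eq_true_eq]
  refine ⟨fun h => h.2, fun h => ⟨?_, h⟩⟩
  simp only [In, Prod.mk.injEq] at h; omega

theorem pt_red (t) : PT (red t) := by
  have h0 : PT kk := by unfold kk; fun_prop
  have h0' : PB kk := (show PB fun a : Gr × ℕ => a.1.n by fun_prop).mono fun a => min_le_right _ _
  have h2 : PT fun q : (Gr × ℕ) × ℕ × ℕ => dmA q.1 q.2.1 q.2.2 := by unfold dmA; fun_prop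
  have h3 : PT fun q : (Gr × ℕ) × T => decide (In q.1.1.n (4 * kk q.1 + 2) q.2) := by unfold In; fun_prop
  have h4 : PT vs := by unfold vs; fun_prop
  have h5 : PT fun q : Bool × T × T => decide (rel t q.1 q.2.1 q.2.2) := by unfold rel; fun_prop
  have h6 : PT fun q : (Gr × ℕ) × T × T => decide (rel t (dmA q.1 q.2.1.2.1 q.2.2.2.1) q.2.1 q.2.2) :=
    h5.comp (g := fun q : (Gr × ℕ) × T × T => (dmA q.1 q.2.1.2.1 q.2.2.2.1, q.2.1, q.2.2))
      ((h2.comp (g := fun q : (Gr × ℕ) × T × T => (q.1, q.2.1.2.1, q.2.2.2.1)) (by fun_prop)).pair (by fun_prop))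
  unfold red; fun_prop

def iso (t) (a : Gr × ℕ) : (red t a).1.G ≃g HG t a.1.n (4 * kk a + 2) (dmA a) :=
  (mkGrIso _ _).trans ⟨Equiv.subtypeEquivRight fun _ => mem_vs, fun {x y} => by
    have h1 : x.1 ∈ vs a := x.2
    have h2 : y.1 ∈ vs a := y.2
    simp [adj, h1, h2, List.mem_product]⟩

theorem contr_mono {P : ∀ V : Type, SimpleGraph V → Prop} {V : Type} {G : SimpleGraph V} {j k : ℕ} (h : j ≤ k)
    (c : Contr P j V G) : Contr P k V G := by
  induction j generalizing k V with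
  | zero => exact Contr.of_prop c
  | succ j ih =>
    obtain ⟨k, rfl⟩ : ∃ i, k = i + 1 := ⟨k - 1, by omega⟩
    exact c.imp id fun ⟨u, v, h1, h2⟩ => ⟨u, v, h1, ih (by omega) h2⟩

theorem spec (t) (a : Gr × ℕ) : DomSet a ↔ FreeC [HH t] (red t a) := by
  classical
  have := Finite.of_equiv _ (iso t a).toEquiv
  constructor
  · rintro ⟨s, h1, h2⟩
    have h3 : (s.image Fin.val).card ≤ kk a := Finset.card_image_le.trans
      (le_min h1 (by simpa using s.card_le_univ))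
    refine contr_mono (Nat.mul_le_mul_left 2 h3) ((complete (by omega) _ (fun v hv => ?_) fun u hu => ?_).iso (her _)
      (iso t a).symm)
    · obtain ⟨v, -, rfl⟩ := Finset.mem_image.1 hv; exact v.2
    · rcases h2 ⟨u, hu⟩ with h | ⟨v, h, h'⟩
      · exact ⟨u, Finset.mem_image.2 ⟨_, h, rfl⟩, by simp [dmA]⟩
      · exact ⟨v, Finset.mem_image_of_mem _ h, by simp [dmA, (Gr.adjB_iff ..).2 h']⟩
  · intro h
    obtain ⟨D, h1, h2, h3⟩ := sound le_rfl (fun u _ => by simp [dmA]) (Contr.iso (her _) (iso t a) h)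
    refine ⟨Finset.univ.filter fun v => v.1 ∈ D, le_trans (Finset.card_le_card_of_injOn Fin.val
      (fun v hv => by simpa using hv) Fin.val_injective.injOn) (h1.trans (min_le_left _ _)), fun u => ?_⟩
    obtain ⟨v, h4, h5⟩ := h3 u u.2
    rcases of_decide_eq_true h5 with rfl | h5
    · left; simpa using h4
    · exact .inr ⟨⟨v, h2 v h4⟩, by simpa using h4, (Gr.adjB_iff ..).1 h5⟩

theorem hard (t) : (∃ R : Gr × ℕ → Gr × ℕ, PT R ∧ ∀ a, (DomSet a ↔ FreeC [HH t] (R a)) ∧ (R a).2 ≤ 2 * a.2) ∧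
    (FPT (FreeC [HH t]) Prod.snd → FPT DomSet Prod.snd) := by
  have h : ∀ a, (red t a).2 ≤ 2 * a.2 := fun a => Nat.mul_le_mul_left 2 (min_le_left _ _)
  exact ⟨⟨red t, pt_red t, fun a => ⟨spec t a, h a⟩⟩, FPT.red (g := fun k => 2 * k) (pt_red t)
    (Primrec.nat_mul.comp (Primrec.const 2) Primrec.id).to_comp (spec t) h⟩

end Pool.Agent.H.MP_09c861_lc
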