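import Pool.Agent.H.MP_09c861_lc.Sol

namespace Pool.Agent.H.MP_09c861_lc
open Pool.Agent.Lib.CX Function SimpleGraph Classical Finset

theorem many {S : Finset ℕ} {N x : ℕ} (h : N < #(S.filter (· < x))) :
    N < #(S.filter fun y => #(S.filter (· < y)) ≤ N) := by
  have ex : ∃ x, N < #(S.filter (· < x)) := ⟨x, h⟩
  refine (Nat.find_spec ex).trans_le (card_le_card fun y hy => ?_)
  rw [mem_filter] at hy ⊢
  exact ⟨hy.1, not_lt.1 (Nat.find_min ex hy.2)⟩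

theorem few {S : Finset ℕ} {N : ℕ} (h : ∀ y ∈ S, #(S.filter (· < y)) ≤ N) : #S ≤ N + 1 := by
  rcases S.eq_empty_or_nonempty with rfl | ne
  · simp
  · have := h _ (S.max'_mem ne)
    refine (card_le_card (t := insert (S.max' ne) (S.filter (· < S.max' ne))) fun y hy => ?_).trans
      ((card_insert_le ..).trans (by omega))
    simpa [hy, ← le_iff_eq_or_lt] using S.le_max' y hy

theorem exists_swap {β : Type} [DecidableEq β] {B₁ B₂ : Finset ℕ} (hd : Disjoint B₁ B₂) (τ : ℕ → β)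
    (h : ∀ c, #(B₁.filter (τ · = c)) = #(B₂.filter (τ · = c))) :
    ∃ σ : ℕ → ℕ, Involutive σ ∧ (∀ y ∈ B₁, σ y ∈ B₂) ∧ (∀ y ∈ B₂, σ y ∈ B₁) ∧ (∀ y, y ∉ B₁ → y ∉ B₂ → σ y = y) ∧
      ∀ y, τ (σ y) = τ y := by
  have k : ∀ (B : Finset ℕ) c, Fintype.card {y : B // τ y = c} = #(B.filter (τ · = c)) := fun B c => by
    rw [Fintype.card_subtype, ← card_map (Embedding.subtype _)]
    congr 1; ext y; simp [and_comm]
  let e : B₁ ≃ B₂ := Equiv.ofFiberEquiv (f := fun y : B₁ => τ y) (g := fun y : B₂ => τ y) fun c =>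
    Fintype.equivOfCardEq (by rw [k, k, h])
  have he : ∀ y, τ (e y) = τ y := fun y =>
    Equiv.ofFiberEquiv_map (f := fun y : B₁ => τ y) (g := fun y : B₂ => τ y) _ y
  have d := disjoint_left.1 hd
  refine ⟨fun y => if h : y ∈ B₁ then e ⟨y, h⟩ else if h : y ∈ B₂ then e.symm ⟨y, h⟩ else y, fun y => ?_,
    fun y hy => by simp [hy], fun y hy => by simp [hy, mt (@d y) (not_not.2 hy)], fun y a b => by simp [a, b],
    fun y => ?_⟩
  · by_cases a : y ∈ B₁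
    · simp [a, mt (@d _) (not_not.2 (e ⟨y, a⟩).2)]
    · by_cases b : y ∈ B₂ <;> simp [a, b]
  · by_cases a : y ∈ B₁
    · simpa [a] using he ⟨y, a⟩
    · by_cases b : y ∈ B₂
      · simpa [a, b] using (he (e.symm ⟨y, b⟩)).symm
      · simp [a, b]

theorem countP_card {l : List ℕ} (h : l.Nodup) (p : ℕ → Bool) : l.countP p = #(l.toFinset.filter (p · = true)) := by
  rw [List.countP_eq_length_filter, ← List.toFinset_card_of_nodup (h.filter _), List.toFinset_filter]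

def tw (a : Gr) (x y : ℕ) : Bool := (List.range a.n).all fun z => a.adjB x z == a.adjB y z
def k1 (a : Gr) (N x : ℕ) : Bool := decide (((List.range a.n).countP fun y => decide (y < x) && tw a x y) ≤ N)
def ty (a : Gr) (X : List ℕ) (x : ℕ) : List Bool := X.map fun z => a.adjB x z
def cnt (a : Gr) (X M : List ℕ) (x w : ℕ) : ℕ := M.countP fun y => !a.adjB x y && ty a X y == ty a X w
def ev (a : Gr) (X M : List ℕ) (x x' : ℕ) : Bool := M.all fun w => cnt a X M x w == cnt a X M x' w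
def rk (a : Gr) (X M : List ℕ) (x : ℕ) : ℕ := M.countP fun r => (M.all fun y => a.adjB r y || decide (r ≤ y)) &&
  ev a X M r x && M.all fun y => a.adjB x y || decide (r < y)
def Ml (a : Gr) (N : ℕ) (C X : List ℕ) : List ℕ := C.filter fun x => decide (x ∉ X) && k1 a N x
def k2 (a : Gr) (N : ℕ) (X M : List ℕ) (x : ℕ) : Bool := k1 a N x && decide (x ∈ M → rk a X M x ≤ N)

variable {a : Gr} {N : ℕ} {C X : List ℕ}

theorem adjB_eq {x y z} : a.adjB x z = a.adjB y z ↔ ((GN a).Adj x z ↔ (GN a).Adj y z) := by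
  rw [GN_adj, GN_adj, Bool.eq_iff_iff]

theorem tw_iff {x y} : tw a x y = true ↔ ∀ z, (GN a).Adj x z ↔ (GN a).Adj y z := by
  simp only [tw, List.all_eq_true, List.mem_range, beq_iff_eq, adjB_eq]
  refine ⟨fun h z => ?_, fun h z _ => h z⟩
  by_cases e : z < a.n
  exacts [h z e, iff_of_false (fun h => e (GN_lt _ _ h.symm)) fun h => e (GN_lt _ _ h.symm)]

theorem k1_iff {x y} (h : tw a x y = true) :
    k1 a N y = true ↔ #(((range a.n).filter (tw a x · = true)).filter (· < y)) ≤ N := by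
  rw [k1, decide_eq_true_eq, countP_card List.nodup_range, List.toFinset_range, filter_filter]
  congr! 3 with z
  simp only [tw_iff, Bool.and_eq_true, decide_eq_true_eq] at h ⊢
  simp only [h, and_comm]

theorem hyp1 : Hyp (GN a) (Set.Iio a.n) {x | x < a.n ∧ k1 a N x = true} N := by
  refine ⟨fun x hx => hx.1, fun x hx h T hT => ?_⟩
  have h1 := many (not_le.1 (mt (k1_iff (tw_iff.2 fun _ => Iff.rfl)).2 fun e => h ⟨hx, e⟩))
  obtain ⟨y, h2, h3⟩ := exists_mem_notMem_of_card_lt_card (hT.trans_lt h1)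
  simp only [mem_filter, mem_range] at h2
  have h4 : ∀ u z, (GN a).Adj (Equiv.swap x y u) z ↔ (GN a).Adj u z := fun u z => by
    rw [Equiv.swap_apply_def]
    split_ifs with e1 e2
    exacts [e1 ▸ (tw_iff.1 h2.1.2 z).symm, e2 ▸ tw_iff.1 h2.1.2 z, Iff.rfl]
  have h5 : Equiv.swap x y x ∈ {x | x < a.n ∧ k1 a N x = true} := by
    rw [Equiv.swap_apply_left]; exact ⟨h2.1.1, (k1_iff h2.1.2).2 (by simpa only [mem_filter, mem_range] using h2.2)⟩
  refine ⟨Equiv.swap x y, ⟨Equiv.swap_apply_self _ _, fun z hz => Equiv.swap_apply_of_ne_of_ne ?_ ?_,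
    fun u _ z _ => by rw [h4, adj_comm, h4, adj_comm]⟩, h5, fun z hz => ?_⟩
  · rintro rfl; exact hz hx
  · rintro rfl; exact hz h2.1.1
  · by_cases e : z = x
    exacts [.inr (by rw [e]; exact ⟨h, h5⟩), .inl (Equiv.swap_apply_of_ne_of_ne e (by rintro rfl; exact h3 hz))]

structure Ctx (a : Gr) (C X : List ℕ) : Prop where
  nd : C.Nodup
  lt : ∀ x ∈ C, x < a.n
  cl : ∀ x ∈ C, ∀ y, (GN a).Adj x y → y ∈ C
  p3 : ∀ x ∈ C, ∀ y ∈ C, ∀ z ∈ C, x ∉ X → y ∉ X → z ∉ X → (GN a).Adj x y → (GN a).Adj x z ∨ (GN a).Adj y z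

theorem mem_Ml {x} : x ∈ Ml a N C X ↔ x ∈ C ∧ x ∉ X ∧ k1 a N x = true := by simp [Ml]

theorem ty_iff {x y} : ty a X x = ty a X y ↔ ∀ z ∈ X, (GN a).Adj x z ↔ (GN a).Adj y z := by
  simp only [ty, List.map_inj_left, adjB_eq]

theorem Ctx.same (c : Ctx a C X) {x y z} (hx : x ∈ C) (hy : y ∈ C) (hz : z ∈ C) (x1 : x ∉ X) (y1 : y ∉ X)
    (z1 : z ∉ X) (h : ¬ (GN a).Adj x y) : (GN a).Adj x z ↔ (GN a).Adj y z :=
  ⟨fun e => ((c.p3 x hx z hz y hy x1 z1 y1 e).resolve_left h).symm,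
    fun e => ((c.p3 y hy z hz x hx y1 z1 x1 e).resolve_left fun e => h e.symm).symm⟩

noncomputable def Bl (a : Gr) (M : List ℕ) (x : ℕ) : Finset ℕ := M.toFinset.filter fun y => ¬ (GN a).Adj x y
noncomputable def ρ (a : Gr) (M : List ℕ) (x : ℕ) : ℕ := sInf (Bl a M x : Set ℕ)

theorem mem_Bl {M x y} : y ∈ Bl a M x ↔ y ∈ M ∧ ¬ (GN a).Adj x y := by simp [Bl]

theorem Ctx.bl (c : Ctx a C X) {x y} (hx : x ∈ Ml a N C X) (hy : y ∈ Bl a (Ml a N C X) x) :
    Bl a (Ml a N C X) y = Bl a (Ml a N C X) x := by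
  obtain ⟨h1, h2⟩ := mem_Bl.1 hy
  rw [mem_Ml] at hx h1
  refine filter_congr fun z hz => not_congr ?_
  have := mem_Ml.1 (List.mem_toFinset.1 hz)
  exact (c.same hx.1 h1.1 this.1 hx.2.1 h1.2.1 this.2.1 h2).symm

theorem rho_mem {M x} (hx : x ∈ M) : ρ a M x ∈ Bl a M x :=
  Nat.sInf_mem (s := (Bl a M x : Set ℕ)) ⟨x, mem_Bl.2 ⟨hx, (GN a).irrefl⟩⟩

theorem ev_iff {M : List ℕ} (hM : M.Nodup) {x y} : ev a X M x y = true ↔
    ∀ c, #((Bl a M x).filter (ty a X · = c)) = #((Bl a M y).filter (ty a X · = c)) := by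
  have k : ∀ x w, cnt a X M x w = #((Bl a M x).filter (ty a X · = ty a X w)) := fun x w => by
    rw [cnt, countP_card hM, Bl, filter_filter]
    congr! 2 with z
    simp [GN_adj]
  simp only [ev, List.all_eq_true, beq_iff_eq, k]
  refine ⟨fun h c => ?_, fun h w _ => h _⟩
  by_cases e : ∃ w ∈ M, ty a X w = c
  · obtain ⟨w, hw, rfl⟩ := e; exact h w hw
  · rw [filter_false_of_mem fun z hz b => e ⟨z, (mem_Bl.1 hz).1, b⟩,
      filter_false_of_mem fun z hz b => e ⟨z, (mem_Bl.1 hz).1, b⟩]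

noncomputable def Rp (a : Gr) (X M : List ℕ) (x : ℕ) : Finset ℕ :=
  M.toFinset.filter fun r => ρ a M r = r ∧ ev a X M r x = true

theorem rk_eq {M : List ℕ} (hM : M.Nodup) {x y} (hy : y ∈ M) (h : ev a X M y x = true) :
    rk a X M y = #((Rp a X M x).filter (· < ρ a M y)) := by
  rw [rk, countP_card hM, Rp, filter_filter]
  refine congrArg card (filter_congr fun r hr => ?_)
  have hr := List.mem_toFinset.1 hr
  simp only [Bool.and_eq_true, List.all_eq_true, Bool.or_eq_true, decide_eq_true_eq, ← GN_adj, or_iff_not_imp_left,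
    ev_iff hM] at h ⊢
  simp only [h]
  refine and_congr (and_congr_left' ⟨fun e => le_antisymm (Nat.sInf_le (mem_Bl.2 ⟨hr, (GN a).irrefl⟩))
    (e _ (mem_Bl.1 (rho_mem hr)).1 (mem_Bl.1 (rho_mem hr)).2), fun e z h1 h2 => e ▸ Nat.sInf_le (mem_Bl.2 ⟨h1, h2⟩)⟩)
    ⟨fun e => e _ (mem_Bl.1 (rho_mem hy)).1 (mem_Bl.1 (rho_mem hy)).2, fun e z h1 h2 =>
      e.trans_le (Nat.sInf_le (mem_Bl.2 ⟨h1, h2⟩))⟩

theorem Ctx.hyp2 (c : Ctx a C X) : Hyp (GN a) {x | x < a.n ∧ k1 a N x = true}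
    {x | x < a.n ∧ k2 a N X (Ml a N C X) x = true} N := by
  refine ⟨fun x hx => ⟨hx.1, (Bool.and_eq_true_iff.1 hx.2).1⟩, fun x hx h T hT => ?_⟩
  set M := Ml a N C X with hM
  have nd : M.Nodup := c.nd.filter _
  obtain ⟨h1, h2⟩ : x ∈ M ∧ N < rk a X M x := by simpa [k2, hx.1, hx.2] using h
  have bad : ∀ y ∈ Bl a M x, N < rk a X M y := fun y hy => by
    rw [rk_eq (x := x) nd (mem_Bl.1 hy).1 ((ev_iff nd).2 fun _ => by rw [c.bl h1 hy]), ρ, c.bl h1 hy]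
    rwa [rk_eq nd h1 ((ev_iff nd).2 fun _ => rfl)] at h2
  rw [rk_eq nd h1 ((ev_iff nd).2 fun _ => rfl)] at h2
  obtain ⟨r, r1, r2⟩ := exists_mem_notMem_of_card_lt_card ((card_image_le (f := ρ a M)).trans_lt (hT.trans_lt (many h2)))
  obtain ⟨r1, r3⟩ := mem_filter.1 r1
  obtain ⟨r1, r4, r5⟩ := mem_filter.1 r1
  have r1 := List.mem_toFinset.1 r1
  have good : ∀ y ∈ Bl a M r, rk a X M y ≤ N := fun y hy => by
    rw [rk_eq (x := x) nd (mem_Bl.1 hy).1 ((ev_iff nd).2 fun d => by rw [c.bl r1 hy]; exact (ev_iff nd).1 r5 d), ρ,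
      c.bl r1 hy, ← ρ, r4]
    exact r3
  have hd : Disjoint (Bl a M x) (Bl a M r) := disjoint_left.2 fun y a b => (bad y a).not_ge (good y b)
  obtain ⟨σ, s1, s2, s3, s4, s5⟩ := exists_swap hd (ty a X) fun d => ((ev_iff nd).1 r5 d).symm
  have kp : ∀ y ∈ Bl a M r, y ∈ {x | x < a.n ∧ k2 a N X M x = true} := fun y hy => by
    have := mem_Ml.1 (mem_Bl.1 hy).1
    exact ⟨c.lt _ this.1, by simp [k2, this.2.2, good y hy]⟩
  have blk : ∀ {u y z}, u ∈ M → y ∈ Bl a M u → z ∈ M → ((GN a).Adj y z ↔ z ∉ Bl a M u) := fun hu hy hz => by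
    rw [← c.bl hu hy, mem_Bl, ← hM]; simp [hz]
  have one : ∀ y z, k1 a N z = true → z ∉ Bl a M x → z ∉ Bl a M r → ((GN a).Adj (σ y) z ↔ (GN a).Adj y z) := by
    intro y z z1 z2 z3
    have key : ∀ u v, u ∈ M → v ∈ M → y ∈ Bl a M u → σ y ∈ Bl a M v → z ∉ Bl a M u → z ∉ Bl a M v →
        ((GN a).Adj (σ y) z ↔ (GN a).Adj y z) := fun u v hu hv y1 y2 z2 z3 => by
      by_cases e : z ∈ X
      · exact ty_iff.1 (s5 y) z e
      by_cases e' : z ∈ C
      · exact iff_of_true ((blk hv y2 (mem_Ml.2 ⟨e', e, z1⟩)).2 z3) ((blk hu y1 (mem_Ml.2 ⟨e', e, z1⟩)).2 z2)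
      · exact iff_of_false (fun h => e' (c.cl _ (mem_Ml.1 (mem_Bl.1 y2).1).1 _ h))
          fun h => e' (c.cl _ (mem_Ml.1 (mem_Bl.1 y1).1).1 _ h)
    by_cases b' : y ∈ Bl a M x
    · exact key x r h1 r1 b' (s2 y b') z2 z3
    by_cases b : y ∈ Bl a M r
    · exact key r x r1 h1 b (s3 y b) z3 z2
    · rw [s4 y b' b]
  have d1 := disjoint_left.1 hd
  have d2 := disjoint_right.1 hd
  refine ⟨σ, ⟨s1, fun y hy => s4 y ?_ ?_, fun y hy z hz => ?_⟩, kp _ (s2 x (mem_Bl.2 ⟨h1, (GN a).irrefl⟩)),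
    fun y hy => ?_⟩
  · exact fun h => hy ⟨c.lt _ (mem_Ml.1 (mem_Bl.1 h).1).1, (mem_Ml.1 (mem_Bl.1 h).1).2.2⟩
  · exact fun h => hy ⟨c.lt _ (mem_Ml.1 (mem_Bl.1 h).1).1, (mem_Ml.1 (mem_Bl.1 h).1).2.2⟩
  · by_cases z1 : z ∉ Bl a M x ∧ z ∉ Bl a M r
    · rw [s4 z z1.1 z1.2]; exact one y z hz.2 z1.1 z1.2
    by_cases y1 : y ∉ Bl a M x ∧ y ∉ Bl a M r
    · rw [s4 y y1.1 y1.2, adj_comm, one z y hy.2 y1.1 y1.2, adj_comm]
    rw [not_and_or, not_not, not_not] at z1 y1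
    rcases y1 with y1 | y1 <;> rcases z1 with z1 | z1
    · simp [blk r1 (s2 y y1) (mem_Bl.1 (s2 z z1)).1, blk h1 y1 (mem_Bl.1 z1).1, z1, s2 z z1]
    · simp [blk r1 (s2 y y1) (mem_Bl.1 (s3 z z1)).1, blk h1 y1 (mem_Bl.1 z1).1, d2 z1, d1 (s3 z z1)]
    · simp [blk h1 (s3 y y1) (mem_Bl.1 (s2 z z1)).1, blk r1 y1 (mem_Bl.1 z1).1, d1 z1, d2 (s2 z z1)]
    · simp [blk h1 (s3 y y1) (mem_Bl.1 (s3 z z1)).1, blk r1 y1 (mem_Bl.1 z1).1, z1, s3 z z1]
  · by_cases e : y ∈ Bl a M x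
    · refine .inr ⟨fun h => ?_, kp _ (s2 y e)⟩
      have := bad y e
      simp only [k2, Set.mem_ofPred_eq, Bool.and_eq_true, decide_eq_true_eq] at h
      exact this.not_ge (h.2.2 (mem_Bl.1 e).1)
    · refine .inl (s4 y e fun h => r2 (mem_image.2 ⟨y, hy, ?_⟩))
      rw [ρ, c.bl r1 h, ← ρ, r4]

def bnd (N m s : ℕ) : ℕ := m + (N + 1) * (N + 1) * ((N + 2) ^ s * 2 ^ m)

theorem Ctx.size (c : Ctx a C X) :
    (C.filter fun x => k2 a N X (Ml a N C X) x).length ≤ bnd N X.length (2 ^ X.length) := by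
  set M := Ml a N C X with hM
  have nd : M.Nodup := c.nd.filter _
  let τ : ℕ → Fin X.length → Bool := fun y i => a.adjB y X[i]
  have hτ : ∀ x y, τ x = τ y ↔ ty a X x = ty a X y := fun x y => by
    simp only [τ, ty, List.map_inj_left, funext_iff, List.forall_mem_iff_getElem]
    exact ⟨fun h i hi => h ⟨i, hi⟩, fun h i => h i i.2⟩
  have b1 : ∀ x ∈ M, ∀ d, #((Bl a M x).filter (τ · = d)) ≤ N + 1 := fun x hx d => few fun y hy => by
    obtain ⟨y1, rfl⟩ := mem_filter.1 hy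
    have y2 := mem_Ml.1 (mem_Bl.1 y1).1
    refine le_trans (card_le_card fun z hz => ?_) ((k1_iff (tw_iff.2 fun _ => Iff.rfl)).1 y2.2.2)
    simp only [mem_filter, mem_range] at hz ⊢
    have z2 := mem_Ml.1 (mem_Bl.1 hz.1.1).1
    refine ⟨⟨c.lt _ z2.1, tw_iff.2 fun w => ?_⟩, hz.2⟩
    by_cases e : w ∈ X
    · exact (ty_iff.1 ((hτ _ _).1 hz.1.2) w e).symm
    by_cases e' : w ∈ C
    · exact c.same y2.1 z2.1 e' y2.2.1 z2.2.1 e (mem_Bl.1 (c.bl hx y1 ▸ hz.1.1 :)).2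
    · exact iff_of_false (fun h => e' (c.cl _ y2.1 _ h)) fun h => e' (c.cl _ z2.1 _ h)
  let K := M.toFinset.filter fun x => rk a X M x ≤ N
  have b2 : #K ≤ (N + 1) * (N + 1) * #(Fintype.piFinset (fun _ : Fin X.length → Bool => range (N + 2)) ×ˢ
      (univ : Finset (Fin X.length → Bool))) := by
    refine card_le_mul_card_image_of_maps_to (f := fun x => (fun d => #((Bl a M x).filter (τ · = d)), τ x))
      (fun x hx => ?_) _ fun p _ => ?_
    · simpa [Nat.lt_succ_iff] using b1 x (by simpa using (mem_filter.1 hx).1)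
    · rcases (K.filter fun x => (fun d => #((Bl a M x).filter (τ · = d)), τ x) = p).eq_empty_or_nonempty with
        e | ⟨x, hx⟩
      · simp [e]
      have e1 : ∀ y ∈ K.filter fun x => (fun d => #((Bl a M x).filter (τ · = d)), τ x) = p,
          y ∈ M ∧ rk a X M y ≤ N ∧ ev a X M y x = true ∧ τ y = τ x := fun y hy => by
        simp only [K, mem_filter, List.mem_toFinset] at hx hy
        have := Prod.ext_iff.1 (hy.2.trans hx.2.symm)
        refine ⟨hy.1.1, hy.1.2, List.all_eq_true.2 fun w hw => ?_, this.2⟩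
        have k : ∀ x, cnt a X M x w = #((Bl a M x).filter (τ · = τ w)) := fun x => by
          rw [cnt, countP_card nd, Bl, filter_filter]
          congr! 2 with z
          simp [GN_adj, hτ]
        simpa [k] using congrFun this.1 (τ w)
      refine (card_le_mul_card_image_of_maps_to (f := ρ a M) (t := (Rp a X M x).filter fun y =>
        #((Rp a X M x).filter (· < y)) ≤ N) (fun y hy => ?_) (N + 1) fun r hr => ?_).trans
        (Nat.mul_le_mul_left _ (few fun y hy => le_trans (card_le_card (filter_subset_filter _ (filter_subset _ _)))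
          (mem_filter.1 hy).2))
      · obtain ⟨y1, y2, y3, -⟩ := e1 y hy
        have y4 := c.bl y1 (rho_mem y1)
        refine mem_filter.2 ⟨mem_filter.2 ⟨by simpa using (mem_Bl.1 (rho_mem y1)).1, by rw [ρ, y4]; rfl,
          (ev_iff nd).2 fun d => by rw [y4]; exact (ev_iff nd).1 y3 d⟩, by rwa [← rk_eq nd y1 y3]⟩
      · refine le_trans (card_le_card fun y hy => ?_)
          (b1 r (by simpa using (mem_filter.1 (mem_filter.1 hr).1).1) (τ x))
        obtain ⟨y0, rfl⟩ := mem_filter.1 hy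
        obtain ⟨y1, -, -, y3⟩ := e1 y y0
        exact mem_filter.2 ⟨by rw [c.bl y1 (rho_mem y1)]; exact mem_Bl.2 ⟨y1, (GN a).irrefl⟩, y3⟩
  rw [← List.toFinset_card_of_nodup (c.nd.filter _)]
  refine (card_le_card (t := X.toFinset ∪ K) fun x hx => ?_).trans ((card_union_le ..).trans
    (add_le_add (List.toFinset_card_le _) (by simpa using b2)))
  simp only [List.mem_toFinset, List.mem_filter, k2, Bool.and_eq_true, decide_eq_true_eq, mem_union, K,
    mem_filter] at hx ⊢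
  by_cases e : x ∈ X
  exacts [.inl e, .inr ⟨mem_Ml.2 ⟨hx.1, e, hx.2.1⟩, hx.2.2 (mem_Ml.2 ⟨hx.1, e, hx.2.1⟩)⟩]

end Pool.Agent.H.MP_09c861_lc
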