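import Pool.Agent.H.MP_09c861_lc.Hard

namespace Pool.Agent.H.MP_09c861_lc
open Pool.Agent.Lib.CX Function SimpleGraph Classical

variable {V W X : Type} {G : SimpleGraph ℕ} {n k N : ℕ} {A A' : Set ℕ} {f : ℕ → W} {σ : ℕ → ℕ}

def B5 (G : SimpleGraph V) (ψ : Fin 5 → V) : Prop := Bd G (ψ 0) (ψ 1) (ψ 2) (ψ 3) (ψ 4)

theorem B5.congr {G : SimpleGraph V} {G' : SimpleGraph W} {ψ ψ'} (h : B5 G ψ)
    (e : ∀ i j, G.Adj (ψ i) (ψ j) ↔ G'.Adj (ψ' i) (ψ' j)) : B5 G' ψ' := by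
  simpa only [B5, Bd, e] using h

theorem B5.nb {G : SimpleGraph V} {ψ} (h : B5 G ψ) (i) : ∃ y, G.Adj (ψ i) y := by
  obtain ⟨⟨h1, h2, h3, -⟩, h4, -⟩ := h
  fin_cases i
  exacts [⟨_, h1⟩, ⟨_, h1.symm⟩, ⟨_, h2.symm⟩, ⟨_, h3.symm⟩, ⟨_, h4⟩]

theorem B5.lift {G : SimpleGraph V} {f : V → W} {ψ} (h : B5 (G.map f) ψ) :
    ∃ φ : Fin 5 → V, ψ = f ∘ φ ∧ ∀ i, ∃ y, G.Adj (φ i) y := by
  have : ∀ i, ∃ x, f x = ψ i ∧ ∃ y, G.Adj x y := fun i => by
    obtain ⟨y, -, a, b, h1, h2, -⟩ := h.nb i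
    exact ⟨a, h2, b, h1⟩
  choose φ h1 h2 using this
  exact ⟨φ, funext fun i => (h1 i).symm, h2⟩

theorem ker_adj {G : SimpleGraph V} {f : V → W} {g : V → X} (e : ∀ x y, f x = f y ↔ g x = g y) (x y) :
    (G.map f).Adj (f x) (f y) ↔ (G.map g).Adj (g x) (g y) := by
  simp only [map_adj', ne_eq, e]

theorem B5.ker {G : SimpleGraph V} {f : V → W} {g : V → X} (e : ∀ x y, f x = f y ↔ g x = g y) {ψ}
    (h : B5 (G.map f) ψ) : ∃ ψ', B5 (G.map g) ψ' := by
  obtain ⟨φ, rfl, -⟩ := h.lift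
  exact ⟨g ∘ φ, h.congr fun i j => ker_adj e _ _⟩

structure Sol (G : SimpleGraph ℕ) (n k : ℕ) (A : Set ℕ) (f : ℕ → W) : Prop where
  conn : Conn G f
  un : ∀ x, x ∉ A → Un f x
  cost : n ≤ (f '' Set.Iio n).ncard + k
  free : ∀ φ : Fin 5 → ℕ, (∀ i, φ i ∈ A) → ¬ B5 (G.map f) (f ∘ φ)

structure Sw (G : SimpleGraph ℕ) (A : Set ℕ) (σ : ℕ → ℕ) : Prop where
  inv : Involutive σ
  out : ∀ x, x ∉ A → σ x = x
  adj : ∀ x ∈ A, ∀ y ∈ A, G.Adj (σ x) (σ y) ↔ G.Adj x y

theorem Sw.mem (h : Sw G A σ) {x} (hx : x ∈ A) : σ x ∈ A := by_contra fun e =>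
  e (by rwa [h.inv.injective (h.out _ e)])

theorem mem_of_eq (hu : ∀ x, x ∉ A → Un f x) {x y} (e : f y = f x) (hx : x ∈ A) : y ∈ A :=
  by_contra fun h => h (hu y h x e.symm ▸ hx)

theorem Sw.qadj (h : Sw G A σ) (hu : ∀ x, x ∉ A → Un f x) {x y} (hx : x ∈ A) (hy : y ∈ A) :
    (G.map (f ∘ σ)).Adj (f x) (f y) ↔ (G.map f).Adj (f x) (f y) := by
  refine ⟨fun ⟨ne, a, b, h1, h2, h3⟩ => ⟨ne, σ a, σ b, ?_, h2, h3⟩, fun ⟨ne, a, b, h1, h2, h3⟩ =>
    ⟨ne, σ a, σ b, (h.adj _ (mem_of_eq hu h2 hx) _ (mem_of_eq hu h3 hy)).2 h1, ?_, ?_⟩⟩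
  · exact (h.adj _ (h.inv a ▸ h.mem (mem_of_eq hu h2 hx)) _ (h.inv b ▸ h.mem (mem_of_eq hu h3 hy))).2 h1
  · rw [comp_apply, h.inv, h2]
  · rw [comp_apply, h.inv, h3]

theorem Sw.un (h : Sw G A σ) {x} : Un (f ∘ σ) x ↔ Un f (σ x) :=
  ⟨fun a y e => by rw [← a (σ y) (by rw [comp_apply, h.inv]; exact e), h.inv],
    fun a y e => h.inv.injective (a _ e)⟩

theorem Sol.swap (s : Sol G n k A f) (h : Sw G A σ) (hA : A ⊆ Set.Iio n) : Sol G n k A (f ∘ σ) where
  conn a b e := by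
    by_cases ha : a ∈ A
    · have : ∀ y, Relation.ReflTransGen (fun x y => G.Adj x y ∧ f x = f y) (σ a) y → y ∈ A ∧
          Relation.ReflTransGen (fun x y => G.Adj x y ∧ (f ∘ σ) x = (f ∘ σ) y) a (σ y) := fun y p => by
        induction p with
        | refl => exact ⟨h.mem ha, by rw [h.inv]⟩
        | tail _ e ih =>
          have := mem_of_eq s.un e.2.symm ih.1
          exact ⟨this, ih.2.tail ⟨(h.adj _ ih.1 _ this).2 e.1, by simp only [comp_apply, h.inv _, e.2]⟩⟩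
      simpa only [h.inv b] using (this _ (s.conn _ _ e)).2
    · rw [h.un.2 (by rw [h.out a ha]; exact s.un a ha) b e.symm]
  un x hx := h.un.2 (by rw [h.out x hx]; exact s.un x hx)
  cost := by
    have m : ∀ x < n, σ x < n := fun x hx => by
      by_cases e : x ∈ A
      exacts [hA (h.mem e), by rwa [h.out x e]]
    have : σ '' Set.Iio n = Set.Iio n :=
      Set.Subset.antisymm (by rintro _ ⟨x, hx, rfl⟩; exact m x hx) fun x hx => ⟨σ x, m x hx, h.inv x⟩
    rw [Set.image_comp, this]; exact s.cost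
  free φ hφ b := s.free (σ ∘ φ) (fun i => h.mem (hφ i))
    (b.congr fun i j => h.qadj s.un (h.mem (hφ i)) (h.mem (hφ j)))

noncomputable def Tch (f : ℕ → W) (n : ℕ) : Finset ℕ := (Finset.range n).filter fun x => ¬ Un f x

theorem Sol.mem_tch (s : Sol G n k A f) (hA : A ⊆ Set.Iio n) {x} : x ∈ Tch f n ↔ ¬ Un f x := by
  simp only [Tch, Finset.mem_filter, Finset.mem_range, and_iff_right_iff_imp]
  exact fun h => hA (by_contra fun e => h (s.un x e))

theorem Sol.tch_le (s : Sol G n k A f) (hA : A ⊆ Set.Iio n) : (Tch f n).card ≤ 2 * k := by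
  have h1 : 2 * ((Tch f n).image f).card ≤ (Tch f n).card := Finset.mul_card_image_le_card _ _ fun c hc => by
    obtain ⟨x, hx, rfl⟩ := Finset.mem_image.1 hc
    have := (s.mem_tch hA).1 hx
    simp only [Un, not_forall] at this
    obtain ⟨y, e, ne⟩ := this
    exact Finset.one_lt_card.2 ⟨y, Finset.mem_filter.2 ⟨(s.mem_tch hA).2 fun a => ne (a x e.symm).symm, e⟩, x,
      Finset.mem_filter.2 ⟨hx, rfl⟩, ne⟩
  have h2 := Finset.card_filter_add_card_filter_not (s := Finset.range n) fun x => Un f x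
  have h3 : f '' Set.Iio n = ↑(((Finset.range n).filter fun x => Un f x).image f ∪ (Tch f n).image f) := by
    rw [← Finset.image_union, Tch, Finset.filter_union_filter_not_eq]; simp
  have h4 := s.cost
  rw [h3, Set.ncard_coe_finset] at h4
  have h5 := Finset.card_union_le (((Finset.range n).filter fun x => Un f x).image f) ((Tch f n).image f)
  have h6 := Finset.card_image_le (s := (Finset.range n).filter fun x => Un f x) (f := f)
  rw [Finset.card_range] at h2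
  change _ + (Tch f n).card = n at h2
  omega

def Hyp (G : SimpleGraph ℕ) (A A' : Set ℕ) (N : ℕ) : Prop :=
  A' ⊆ A ∧ ∀ x ∈ A, x ∉ A' → ∀ T : Finset ℕ, T.card ≤ N →
    ∃ σ, Sw G A σ ∧ σ x ∈ A' ∧ ∀ y ∈ T, σ y = y ∨ (y ∉ A' ∧ σ y ∈ A')

theorem Hyp.down (h : Hyp G A A' N) (hA : A ⊆ Set.Iio n) (hN : 2 * k + 5 ≤ N) (s : Sol G n k A f) :
    ∃ f' : ℕ → W, Sol G n k A' f' := by
  induction hm : ((Tch f n).filter fun x => x ∉ A').card using Nat.strong_induction_on generalizing f with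
  | _ m ih =>
  by_cases e : ∀ x, x ∉ A' → Un f x
  · exact ⟨f, s.conn, e, s.cost, fun φ hφ => s.free φ fun i => h.1 (hφ i)⟩
  push Not at e
  obtain ⟨x, h1, h2⟩ := e
  obtain ⟨σ, h3, h4, h5⟩ := h.2 x (by_contra fun e => h2 (s.un x e)) h1 (Tch f n) (by have := s.tch_le hA; omega)
  have s' := s.swap h3 hA
  refine ih _ (hm ▸ Finset.card_lt_card ⟨fun y hy => ?_, fun e => ?_⟩) s' rfl
  · simp only [Finset.mem_filter, s.mem_tch hA, s'.mem_tch hA, h3.un] at hy ⊢
    rcases h5 _ ((s.mem_tch hA).2 hy.1) with a | a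
    · rw [h3.inv.injective a] at hy; exact hy
    · rw [h3.inv] at a; exact absurd a.2 hy.2
  · have := e (Finset.mem_filter.2 ⟨(s.mem_tch hA).2 h2, h1⟩)
    simp only [Finset.mem_filter, s'.mem_tch hA, h3.un] at this
    rcases h5 _ ((s.mem_tch hA).2 this.1) with a | a
    · rw [h3.inv.injective a] at h4; exact h1 h4
    · exact a.1 h4

theorem Hyp.up (h : Hyp G A A' N) (hA : A ⊆ Set.Iio n) (hN : 2 * k + 5 ≤ N) (s : Sol G n k A' f) :
    Sol G n k A f := by
  have hu : ∀ x, x ∉ A → Un f x := fun x hx => s.un x fun e => hx (h.1 e)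
  refine ⟨s.conn, hu, s.cost, fun φ => ?_⟩
  induction hm : (Finset.univ.filter fun i => φ i ∉ A').card using Nat.strong_induction_on generalizing φ with
  | _ m ih =>
  intro hφ b
  by_cases e : ∀ i, φ i ∈ A'
  · exact s.free φ e b
  push Not at e
  obtain ⟨i, h1⟩ := e
  have hA' := h.1.trans hA
  obtain ⟨σ, h3, h4, h5⟩ := h.2 _ (hφ i) h1 (Tch f n ∪ Finset.univ.image φ) (by
    have := s.tch_le hA'
    have := Finset.card_union_le (Tch f n) (Finset.univ.image φ)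
    have := Finset.card_image_le (s := Finset.univ) (f := φ)
    simp only [Finset.card_univ, Fintype.card_fin] at this; omega)
  have fx : ∀ x y, f x = f y → x = y ∨ (σ x = x ∧ σ y = y) := fun x y e => by
    have : ∀ x, ¬ Un f x → σ x = x := fun x hx => (h5 x (Finset.mem_union_left _ ((s.mem_tch hA').2 hx))).resolve_right
      fun a => hx (s.un x a.1)
    by_cases ne : x = y
    exacts [.inl ne, .inr ⟨this x fun a => ne (a y e.symm).symm, this y fun a => ne (a x e)⟩]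
  have kr : ∀ x y, f x = f y ↔ (f ∘ σ) x = (f ∘ σ) y := fun x y => by
    refine ⟨fun e => ?_, fun e => ?_⟩
    · rcases fx x y e with rfl | ⟨a, b⟩
      exacts [rfl, by simp only [comp_apply, a, b, e]]
    · rcases fx _ _ e with a | ⟨a, b⟩
      · rw [h3.inv.injective a]
      · rwa [comp_apply, comp_apply, h3.inv.injective a, h3.inv.injective b] at e
  refine ih _ (hm ▸ Finset.card_lt_card ⟨fun j hj => ?_, fun e => ?_⟩) (σ ∘ φ) rfl (fun j => h3.mem (hφ j))
    (b.congr fun i j => (ker_adj kr _ _).trans (h3.qadj hu (h3.mem (hφ i)) (h3.mem (hφ j))))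
  · simp only [Finset.mem_filter, Finset.mem_univ, true_and, comp_apply] at hj ⊢
    rcases h5 (φ j) (by simp) with a | a
    exacts [a ▸ hj, a.1]
  · have := e (Finset.mem_filter.2 ⟨Finset.mem_univ i, h1⟩)
    exact (Finset.mem_filter.1 this).2 h4

def S (G : SimpleGraph ℕ) (n k : ℕ) : Prop := ∃ (W : Type) (f : ℕ → W), Sol G n k (Set.Iio n) f

theorem Sol.nobad (s : Sol G n k (Set.Iio n) f) (hG : ∀ x y, G.Adj x y → x < n) (ψ) : ¬ B5 (G.map f) ψ := fun b => by
  obtain ⟨φ, rfl, h⟩ := b.lift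
  exact s.free φ (fun i => (h i).elim (hG _)) b

theorem S.mono {j} (h : S G n j) (e : j ≤ k) : S G n k :=
  let ⟨W, f, s⟩ := h; ⟨W, f, s.conn, s.un, s.cost.trans (by omega), s.free⟩

theorem S.min (h : S G n k) : S G n (min k n) :=
  let ⟨W, f, s⟩ := h; ⟨W, f, s.conn, s.un, by have := s.cost; omega, s.free⟩

theorem S.of_free (h : ∀ ψ, ¬ B5 G ψ) : S G n k :=
  ⟨ℕ, id, Conn.pair fun _ _ => .inl, fun _ _ _ e => e, by simp, fun φ _ => by simpa using h φ⟩

def mv (u v x : ℕ) : ℕ := if x = v then u else x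

theorem S.back (hG : ∀ x y, G.Adj x y → x < n) {u v} (e : G.Adj u v) (h : S (G.map (mv u v)) n k) : S G n (k + 1) := by
  obtain ⟨W, f, s⟩ := h
  have hu := hG _ _ e
  have hv := hG _ _ e.symm
  refine ⟨W, f ∘ mv u v, Conn.comp (Conn.pair fun a b h => ?_) s.conn, fun x hx y h => ?_, ?_, fun φ _ => ?_⟩
  · unfold mv at h
    split_ifs at h with h1 h2 h2
    exacts [.inl (h1.trans h2.symm), .inr (h1 ▸ h ▸ e.symm), .inr (h2 ▸ h ▸ e), .inl h]
  · have h1 : mv u v x = x := if_neg (by rintro rfl; exact hx hv)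
    rw [comp_apply, comp_apply, h1] at h
    have := s.un x hx _ h
    unfold mv at this
    split_ifs at this
    exacts [absurd (this ▸ hu) hx, this]
  · have : f '' Set.Iio n ⊆ insert (f v) ((f ∘ mv u v) '' Set.Iio n) := by
      rintro _ ⟨x, hx, rfl⟩
      by_cases h : x = v
      exacts [.inl (by rw [h]), .inr ⟨x, hx, by simp [mv, h]⟩]
    have h1 := (Set.ncard_le_ncard this (((Set.finite_Iio n).image _).insert _)).trans (Set.ncard_insert_le ..)
    have := s.cost; omega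
  · rw [← map_map]
    refine s.nobad ?_ _
    rintro _ _ ⟨-, a, b, h, rfl, -⟩
    unfold mv; split_ifs
    exacts [hu, hG _ _ h]

theorem Sol.fwd (hG : ∀ x y, G.Adj x y → x < n) (s : Sol G n (k + 1) (Set.Iio n) f) {u v} (e : G.Adj u v)
    (e' : f u = f v) : S (G.map (mv u v)) n k := by
  let g : ℕ → Option W := fun x => if x = v then none else some (f x)
  have hv := hG _ _ e.symm
  have h1 : g ∘ mv u v = some ∘ f := funext fun x => by
    by_cases h : x = v <;> simp [g, mv, h, e.ne, e']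
  have kr : ∀ x y, (g ∘ mv u v) x = (g ∘ mv u v) y ↔ f x = f y := fun x y => by rw [h1]; simp
  refine ⟨_, g, fun a b h => ?_, fun x hx y h => ?_, ?_, fun φ _ b => ?_⟩
  · by_cases ha : a = v
    · obtain rfl : b = a := by by_contra hb; simp [g, ha, ha ▸ hb] at h
      exact .refl
    · have hb : b ≠ v := by rintro rfl; simp [g, ha] at h
      have := Conn.of_comp (G := G) (π := mv u v) (f := g) (fun x y h => Relation.ReflTransGen.mono
        (fun x y h => ⟨h.1, (kr _ _).2 h.2⟩) _ _ (s.conn x y ((kr _ _).1 h))) a b (by simpa [mv, ha, hb] using h)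
      simpa [mv, ha, hb] using this
  · have h2 : x ≠ v := by rintro rfl; exact hx hv
    have h3 : y ≠ v := by rintro rfl; simp [g, h2] at h
    exact s.un x hx y (by simpa [g, h2, h3] using h)
  · have : insert none (some '' (f '' Set.Iio n)) ⊆ g '' Set.Iio n := by
      rintro _ (rfl | ⟨_, ⟨x, hx, rfl⟩, rfl⟩)
      · exact ⟨v, hv, by simp [g]⟩
      · refine ⟨mv u v x, ?_, congrFun h1 x⟩
        unfold mv; split_ifs
        exacts [hG _ _ e, hx]
    have h2 := Set.ncard_le_ncard this ((Set.finite_Iio n).image _)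
    rw [Set.ncard_insert_of_notMem (by simp) (((Set.finite_Iio n).image _).image _),
      Set.ncard_image_of_injective _ (Option.some_injective _)] at h2
    have := s.cost; omega
  · rw [map_map] at b
    obtain ⟨ψ, b⟩ := b.ker kr
    exact s.nobad hG ψ b

theorem Sol.zero (s : Sol G n 0 (Set.Iio n) f) (hG : ∀ x y, G.Adj x y → x < n) (ψ) : ¬ B5 G ψ := fun b => by
  have h : ∀ x, Un f x := fun x => by_contra fun h => by
    have := s.tch_le subset_rfl
    have := Finset.card_pos.2 ⟨x, (s.mem_tch subset_rfl).2 h⟩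
    omega
  exact s.nobad hG (f ∘ ψ) (b.congr fun i j => ((h _).adj (h _)).symm)

def GN (a : Gr) : SimpleGraph ℕ := a.G.map Fin.val

theorem GN_adj {a : Gr} {x y} : (GN a).Adj x y ↔ a.adjB x y = true := by
  refine ⟨fun ⟨_, u, v, h, h1, h2⟩ => h1 ▸ h2 ▸ (Gr.adjB_iff ..).2 h, fun h => ?_⟩
  have := of_decide_eq_true h
  exact ⟨this.2.2.1, ⟨x, this.1⟩, ⟨y, this.2.1⟩, (Gr.adjB_iff ..).1 h, rfl, rfl⟩

theorem GN_lt {a : Gr} (x y) (h : (GN a).Adj x y) : x < a.n := (of_decide_eq_true (GN_adj.1 h)).1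

theorem pair_iff {G : SimpleGraph V} : (∀ H ∈ [H₁, H₂], ¬ H.IsIndContained G) ↔ ∀ ψ, ¬ B5 G ψ := by
  have h1 := cont_iff (G := G) false
  have h2 := cont_iff (G := G) true
  simp only [HH, reduceCtorEq, if_false, if_true, iff_false, iff_true] at h1 h2
  simp only [List.mem_cons, List.not_mem_nil, or_false, forall_eq_or_imp, forall_eq, h1, h2]
  refine ⟨fun h ψ b => ?_, fun h => ⟨fun ⟨a, b, c, d, w, e, _⟩ => h ![a, b, c, d, w] e,
    fun ⟨a, b, c, d, w, e, _⟩ => h ![a, b, c, d, w] e⟩⟩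
  by_cases e : G.Adj (ψ 4) (ψ 1)
  exacts [h.2 ⟨_, _, _, _, _, b, e⟩, h.1 ⟨_, _, _, _, _, b, e⟩]

theorem freeC_iff {a : Gr × ℕ} : FreeC [H₁, H₂] a ↔ S (GN a.1) a.1.n a.2 := by
  constructor
  · intro h
    obtain ⟨W, f, h1, h2, h3, h4⟩ := h.sound
    let g : ℕ → W ⊕ ℕ := fun x => if h : x < a.1.n then .inl (f ⟨x, h⟩) else .inr x
    have e : g ∘ Fin.val = Sum.inl ∘ f := funext fun x : Fin a.1.n => by simp [g]
    have kr : ∀ x y, (g ∘ Fin.val) x = (g ∘ Fin.val) y ↔ f x = f y := fun x y => by rw [e]; simp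
    have un : ∀ x, x ∉ Set.Iio a.1.n → Un g x := fun x hx y h => by
      have hx : ¬ x < a.1.n := hx
      by_cases hy : y < a.1.n <;> simp_all [g]
    refine ⟨_, g, fun x y h => ?_, un, ?_, fun φ _ b => ?_⟩
    · by_cases hx : x < a.1.n
      · have hy : y < a.1.n := mem_of_eq un h.symm hx
        exact Conn.of_comp (G := a.1.G) (π := Fin.val) (f := g) (fun x y h => Relation.ReflTransGen.mono
          (fun x y h => ⟨h.1, (kr _ _).2 h.2⟩) _ _ (h2 x y ((kr _ _).1 h))) ⟨x, hx⟩ ⟨y, hy⟩ h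
      · rw [un x hx y h.symm]
    · rw [← Fin.range_val, ← Set.range_comp, e, Set.range_comp, h1.range_eq,
        Set.ncard_image_of_injective _ Sum.inl_injective, Set.ncard_univ]
      simpa using h3
    · rw [GN, map_map] at b
      obtain ⟨ψ, b⟩ := b.ker kr
      exact pair_iff.1 h4 ψ b
  · rintro ⟨W, f, s⟩
    refine Contr.complete (her _) (f ∘ Fin.val) (Conn.comp (Conn.pair fun _ _ h => .inl (Fin.ext h)) s.conn) ?_
      (pair_iff.2 ?_)
    · rw [Set.range_comp, Fin.range_val]; simpa using s.cost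
    · rw [← map_map]; exact s.nobad GN_lt

end Pool.Agent.H.MP_09c861_lc
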