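import Pool.Agent.H.MP_09c861_lc.Alg

namespace Pool.Agent.H.MP_09c861_lc
open Pool.Agent.Lib.CX Function Classical

variable {α : Type} [Enc α] {a : α → Gr} {N x y D : α → ℕ} {X M C : α → List ℕ}

@[fun_prop] theorem pt_k1 (ha : PT a) (hN : PT N) (hx : PT x) : PT fun i => k1 (a i) (N i) (x i) := by
  have h : PT fun q : Gr × ℕ × ℕ => k1 q.1 q.2.1 q.2.2 := by unfold k1 tw; fun_prop
  exact h.comp (g := fun i => (a i, N i, x i)) (by fun_prop)

@[fun_prop] theorem pt_ev (ha : PT a) (hX : PT X) (hM : PT M) (hx : PT x) (hy : PT y) :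
    PT fun i => ev (a i) (X i) (M i) (x i) (y i) := by
  have h0 : PT fun q : Gr × List ℕ × List ℕ × ℕ × ℕ => cnt q.1 q.2.1 q.2.2.1 q.2.2.2.1 q.2.2.2.2 := by
    unfold cnt ty; fun_prop
  have h : PT fun q : Gr × List ℕ × List ℕ × ℕ × ℕ => ev q.1 q.2.1 q.2.2.1 q.2.2.2.1 q.2.2.2.2 :=
    PT.all (PT.beq (h0.comp (g := fun p : (Gr × List ℕ × List ℕ × ℕ × ℕ) × ℕ =>
      (p.1.1, p.1.2.1, p.1.2.2.1, p.1.2.2.2.1, p.2)) (by fun_prop)) (h0.comp
        (g := fun p : (Gr × List ℕ × List ℕ × ℕ × ℕ) × ℕ => (p.1.1, p.1.2.1, p.1.2.2.1, p.1.2.2.2.2, p.2))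
          (by fun_prop))) (by fun_prop)
  exact h.comp (g := fun i => (a i, X i, M i, x i, y i)) (by fun_prop)

@[fun_prop] theorem pt_k2 (ha : PT a) (hN : PT N) (hX : PT X) (hM : PT M) (hx : PT x) :
    PT fun i => k2 (a i) (N i) (X i) (M i) (x i) := by
  have h : PT fun q : Gr × ℕ × List ℕ × List ℕ × ℕ => k2 q.1 q.2.1 q.2.2.1 q.2.2.2.1 q.2.2.2.2 := by
    unfold k2 rk; fun_prop
  exact h.comp (g := fun i => (a i, N i, X i, M i, x i)) (by fun_prop)

@[fun_prop] theorem pt_Ml (ha : PT a) (hN : PT N) (hC : PT C) (hX : PT X) : PT fun i => Ml (a i) (N i) (C i) (X i) := by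
  unfold Ml; fun_prop

@[fun_prop] theorem pt_Xl (ha : PT a) (hC : PT C) : PT fun i => Xl (a i) (C i) := by
  have h : PT fun q : Gr × List ℕ => Xl q.1 q.2 := by
    refine PT.foldl_add (F := fun q : Gr × List ℕ => stX q.1) (D := fun q => size (q.2 ×ˢ q.2 ×ˢ q.2) + 3) ?_
      (by fun_prop) (by fun_prop) (by fun_prop) fun q s t ht => ?_
    · unfold stX cop; fun_prop
    · have := size_mem ht
      obtain ⟨u, v, w⟩ := t
      unfold stX; split_ifs
      · simp only [size_cons, size_pair] at this ⊢; omega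
      · omega
  exact h.comp (g := fun i => (a i, C i)) (by fun_prop)

@[fun_prop] theorem pt_Cl (ha : PT a) (hx : PT x) : PT fun i => Cl (a i) (x i) := by
  have h : PT fun q : Gr × ℕ => Cl q.1 q.2 := by unfold Cl; fun_prop
  exact h.comp (g := fun i => (a i, x i)) (by fun_prop)

@[fun_prop] theorem pt_Kl (ha : PT a) (hN : PT N) (hx : PT x) : PT fun i => Kl (a i) (N i) (x i) := by
  have h : PT fun q : Gr × ℕ × ℕ => Kl q.1 q.2.1 q.2.2 := by unfold Kl; fun_prop
  exact h.comp (g := fun i => (a i, N i, x i)) (by fun_prop)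

@[fun_prop] theorem pt_bad (ha : PT a) : PT fun i => bad (a i) := by
  have h : PT bad := by unfold bad bdB; fun_prop
  exact h.comp ha

@[fun_prop] theorem pt_cand (ha : PT a) (hN : PT N) : PT fun i => cand (a i) (N i) := by
  have h : PT fun q : Gr × ℕ × T5 => cand0 q.1 q.2.1 q.2.2 := by unfold cand0; fun_prop
  exact h.comp (g := fun i => (a i, N i, (bad (a i)).getD (0, 0, 0, 0, 0))) (by fun_prop)

theorem pt_con : PT fun q : Gr × ℕ × ℕ => con q.1 q.2 := by unfold con mv; fun_prop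

theorem pt_nxt : PT fun q : (ℕ × ℕ) × Gr × ℕ => nxt q.1.1 q.1.2 q.2 :=
  PT.pair (pt_con.comp (g := fun q : (ℕ × ℕ) × Gr × ℕ =>
    (q.2.1, (cand q.2.1 q.1.1).getD (q.2.2 % q.1.2) (0, 0))) (by fun_prop)) (by fun_prop)

theorem pt_KK : PT KK := by unfold KK; fun_prop
theorem pb_KK : PB KK := PB.min_right (by fun_prop)

theorem pt_DD : PT DD := by
  have := pt_KK
  have h1 : PT fun a : Gr × ℕ => min (6 * KK a + 6) a.1.n := by fun_prop
  have h2 : PB fun a : Gr × ℕ => min (6 * KK a + 6) a.1.n := PB.min_right (by fun_prop)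
  have h3 : PT fun a : Gr × ℕ => min (2 ^ min (6 * KK a + 6) a.1.n) a.1.n :=
    PT.min (PT.pow (by fun_prop) h1 h2) (by fun_prop)
  have h4 : PB fun a : Gr × ℕ => min (2 ^ min (6 * KK a + 6) a.1.n) a.1.n := PB.min_right (by fun_prop)
  exact PT.add (.const _) (PT.powConst (PT.add h1 (PT.mul (by fun_prop)
    (PT.mul (PT.pow (by fun_prop) h3 h4) (PT.pow (.const _) h1 h2)))) 2)

theorem pt_run : PT fun q : (Gr × ℕ) × ℕ => run q.1 q.2 := by
  have := pt_KK
  have := pt_DD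
  refine PT.iterate (F := fun q : (Gr × ℕ) × ℕ => nxt (2 * KK q.1 + 7) (DD q.1)) (i := fun q => (q.1.1, q.2))
    (B := fun q => size q.1.1 + size (List.range q.1.1.n ×ˢ List.range q.1.1.n) + size q.2 + 1)
    (pt_nxt.comp (g := fun p : ((Gr × ℕ) × ℕ) × Gr × ℕ => ((2 * KK p.1.1 + 7, DD p.1.1), p.2)) (by fun_prop))
    (by fun_prop) (by fun_prop) (pb_KK.comp PT.fst') (by fun_prop) fun q k _ => ?_
  generalize 2 * KK q.1 + 7 = N, DD q.1 = D
  have key : ∀ s : Gr × ℕ, s = (nxt N D)^[k] (q.1.1, q.2) → s.1.1 = q.1.1.1 ∧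
      size s.1.2 ≤ size q.1.1.2 + size (List.range q.1.1.n ×ˢ List.range q.1.1.n) ∧ s.2 ≤ q.2 := by
    induction k with
    | zero => rintro _ rfl; simp
    | succ k ih =>
      rintro _ rfl
      obtain ⟨h1, h2, h3⟩ := ih (by omega) _ rfl
      rw [iterate_succ_apply', nxt]
      refine ⟨(con_fst _).trans h1, ?_, (Nat.div_le_self ..).trans h3⟩
      unfold con; split_ifs
      · exact (size_sublist List.filter_sublist).trans (by simp only [Gr.n, h1]; omega)
      · exact h2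
  obtain ⟨h1, h2, h3⟩ := key _ rfl
  generalize (nxt N D)^[k] (q.1.1, q.2) = s at *
  obtain ⟨⟨s1, s2⟩, s3⟩ := s
  obtain ⟨⟨⟨q1, q2⟩, q3⟩, q4⟩ := q
  have := size_nat_mono h3
  simp only [size_pair] at *
  subst h1
  omega

theorem fpt : FPT (FreeC [H₁, H₂]) Prod.snd := by
  have hp : Primrec₂ fun m n : ℕ => m ^ n := Primrec₂.unpaired'.1 Nat.Primrec.pow
  have l : ∀ c d : ℕ, Primrec fun k : ℕ => c * k + d := fun c d =>
    Primrec.nat_add.comp (Primrec.nat_mul.comp (.const c) .id) (.const d)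
  have := pt_run
  refine FPT.of_pad (M := fun a => DD a ^ KK a) (PT.pow pt_DD pt_KK pb_KK)
    (f := fun k => (16 + bnd (2 * k + 7) (6 * k + 6) (2 ^ (6 * k + 6)) ^ 2) ^ k) ?_ (PB.const 1) (fun a => ?_)
    (V := fun p => decide (∃ i < p.2.length, bad (run p.1 i).1 = none)) ?_ fun a => by simpa using run_iff a
  · have s := Primrec.succ.comp (l 2 7)
    exact (hp.comp (Primrec.nat_add.comp (.const 16) (hp.comp (Primrec.nat_add.comp (l 6 6) (Primrec.nat_mul.comp
      (Primrec.nat_mul.comp s s) (Primrec.nat_mul.comp (hp.comp (Primrec.succ.comp s) (hp.comp (.const 2) (l 6 6)))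
        (hp.comp (.const 2) (l 6 6))))) (.const 2))) .id).to_comp
  · have k : KK a ≤ a.2 := min_le_left _ _
    have m : min (6 * KK a + 6) a.1.n ≤ 6 * a.2 + 6 := by omega
    have : bnd (2 * KK a + 7) (min (6 * KK a + 6) a.1.n) (min (2 ^ min (6 * KK a + 6) a.1.n) a.1.n) ≤
        bnd (2 * a.2 + 7) (6 * a.2 + 6) (2 ^ (6 * a.2 + 6)) :=
      (bnd_mono m ((min_le_left ..).trans (Nat.pow_le_pow_right (by omega) m))).trans (by unfold bnd; gcongr)
    rw [mul_one]
    exact (Nat.pow_le_pow_left (Nat.add_le_add_left (Nat.pow_le_pow_left this 2) 16) _).trans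
      (Nat.pow_le_pow_right (by omega) k)
  · exact PT.decide_exists_lt (PT.decide_eq (pt_bad (PT.fst (this.comp
      (g := fun p : ((Gr × ℕ) × List Unit) × ℕ => (p.1.1, p.2)) (by fun_prop)))) (.const _)) (by fun_prop) (by fun_prop)

end Pool.Agent.H.MP_09c861_lc
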